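import Pool.Agent.K7.H23.AT.Stm3

/-!
Project AT, part 4: the two cases in a form for all degrees.
-/

open Polynomial

set_option autoImplicit false

namespace Pool.Agent.K7.H23.AT

/-- the exceptional numbers `D = g m ≠ 0`: `g F(x, m)` is a square for some `x` coprime to `m` with
`|x| > |D| ^ M`, `F(x, m) = ∑ a_i x^i m^(n-i)` -/
def ExcG (f : ℤ[X]) (M : ℕ) : Set ℤ :=
  {D : ℤ | D ≠ 0 ∧ ∃ g m x y : ℤ, D = g * m ∧ 0 < m ∧ IsCoprime x m ∧
    y ^ 2 = g * (f.scaleRoots m).eval x ∧ |D| ^ M < |x|}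

/-- Job AG (instead of AS; the degree is arbitrary): `StCL → StSF → StDE → StAG`. -/
def StAG : Prop :=
  ∀ n : ℕ, ∃ M : ℕ, ∀ f f₁ : ℤ[X], f.Monic → f.natDegree = n →
    (f.map (Int.castRingHom ℚ)).Separable → f₁.Monic → Irreducible f₁ → f₁ ∣ f →
    3 ≤ f₁.natDegree → Dens0 (ExcG f M)

/-- Job BG (instead of BS; the degree is arbitrary, at least five): `StPC → StSF → StBG`. -/
def StBG : Prop :=
  ∀ n : ℕ, 5 ≤ n → ∃ M : ℕ, ∀ f : ℤ[X], f.Monic → f.natDegree = n →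
    (f.map (Int.castRingHom ℚ)).Separable →
    (∀ f₁ : ℤ[X], f₁.Monic → Irreducible f₁ → f₁ ∣ f → f₁.natDegree ≤ 2) → Dens0 (ExcG f M)

/-- Job BG2: the same under the weaker hypothesis that all irreducible factors have degree at most
`n - 3` (this is what the proof uses; it contains `n = 4` and four rational roots). -/
def StBG2 : Prop :=
  ∀ n : ℕ, 1 ≤ n → ∃ M : ℕ, ∀ f : ℤ[X], f.Monic → f.natDegree = n →
    (f.map (Int.castRingHom ℚ)).Separable →
    (∀ f₁ : ℤ[X], f₁.Monic → Irreducible f₁ → f₁ ∣ f → f₁.natDegree + 3 ≤ n) →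
    Dens0 (ExcG f M)

end Pool.Agent.K7.H23.AT
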