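import Pool.Agent.K7.H89.BS.D
import Pool.Agent.K7.H23.AT.Stm4

/-!
Project AT (MP_d88658_nt), case B in the form for all degrees: `StBG2` from `StPC` and `StSF`
(adapted from Pool/Agent/K7/H89/BS/C.lean and D.lean of helper89).
-/

open Polynomial

set_option autoImplicit false

namespace Pool.Agent.K7.H23.AT

open Pool.Agent.K7.H89.BS

theorem point_data' {k : ℕ} {f : ℤ[X]}
    (F : Fin (k + 1) → ℤ[X]) (hFf : f = ∏ i, F i) {R : ℕ} (hR : 1 ≤ R)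
    (hR' : ∀ i j, i ≠ j → ∀ x m q : ℤ, IsCoprime x m →
      q ∣ ((F i).scaleRoots m).eval x → q ∣ ((F j).scaleRoots m).eval x → q ∣ (R : ℤ))
    {B : ℤ} (hB : ∀ x m : ℤ, 0 < m → IsCoprime x m → B < |x| → (f.scaleRoots m).eval x ≠ 0)
    {sf : ℤ → ℤ} (hsf : ∀ z : ℤ, z ≠ 0 → Squarefree (sf z) ∧ ∃ t : ℤ, t ≠ 0 ∧ z = sf z * t ^ 2)
    {M0 N : ℕ} (hNB : B < (N : ℤ) ^ (M0 + 1)) {D : ℤ} (hD : D ≠ 0)
    (hDN : |D| ≤ N) (hDN' : (N : ℤ) ≤ D ^ 2) {g m x y : ℤ} (hmg : D = g * m) (hsgm : 0 < m)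
    (hxm : IsCoprime x m) (hy : y ^ 2 = g * (f.scaleRoots m).eval x)
    (hx0 : |D| ^ (2 * M0 + 2) < |x|) :
    ∃ x m v : ℤ, 0 < m ∧ m ≤ N ∧ IsCoprime x m ∧ 1 ≤ v ∧
      D = sf ((f.scaleRoots m).eval x) * v ^ 2 * m ∧ (N : ℤ) ^ (M0 + 1) < |x| ∧
      (∀ i, ((F i).scaleRoots m).eval x ≠ 0) ∧
      m * ∏ i, |sf (((F i).scaleRoots m).eval x)| ≤ (R : ℤ) ^ (k + 1) * N := by
  classical
  have hgne : g ≠ 0 := by
    rintro h
    apply hD
    rw [hmg, h, zero_mul]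
  have hgabs : 0 < |g| := abs_pos.2 hgne
  have hDabs : |D| = |g| * m := by rw [hmg, abs_mul, abs_of_pos hsgm]
  have hgD : |g| ≤ |D| := by
    rw [hDabs]
    exact le_mul_of_one_le_right hgabs.le hsgm
  have hmN : m ≤ N := by
    refine le_trans ?_ hDN
    rw [hDabs]
    exact le_mul_of_one_le_left hsgm.le hgabs
  have hxbig : (N : ℤ) ^ (M0 + 1) < |x| := by
    calc (N : ℤ) ^ (M0 + 1) ≤ (D ^ 2) ^ (M0 + 1) := pow_le_pow_left₀ (by positivity) hDN' _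
      _ = |D| ^ (2 * M0 + 2) := by
          rw [← sq_abs D]
          ring
      _ < |x| := hx0
  have hF0 : (f.scaleRoots m).eval x ≠ 0 := hB x m hsgm hxm (hNB.trans hxbig)
  have hprod : (f.scaleRoots m).eval x = ∏ i, ((F i).scaleRoots m).eval x := by
    rw [hFf, scaleRoots_prod, eval_prod]
  have hFi0 : ∀ i, ((F i).scaleRoots m).eval x ≠ 0 := by
    rw [hprod] at hF0
    intro i
    exact Finset.prod_ne_zero_iff.1 hF0 i (Finset.mem_univ i)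
  have hw : g * (f.scaleRoots m).eval x = y ^ 2 := hy.symm
  obtain ⟨hsq, t, ht, htF⟩ := hsf _ hF0
  obtain ⟨v, hv⟩ := sq_lemma hw htF hsq ht
  have hv0 : v ≠ 0 := by
    rintro rfl
    apply hgne
    rw [hv]
    ring
  refine ⟨x, m, |v|, hsgm, hmN, hxm, Int.one_le_abs hv0, ?_, hxbig, hFi0, ?_⟩
  · rw [sq_abs, ← hv, ← hmg]
  · choose hsqi ti hti htFi using fun i => hsf _ (hFi0 i)
    have h1 : ∏ i, |sf (((F i).scaleRoots m).eval x)| ≤
        (R : ℤ) ^ (k + 1) * |sf ((f.scaleRoots m).eval x)| := by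
      refine prod_bound (fun i => sf (((F i).scaleRoots m).eval x)) hsqi hR ?_
        (t := t) (Y := ∏ i, ti i) ?_ ?_ ?_
      · intro i j hij q hqi hqj
        refine hR' i j hij x m q hxm ?_ ?_
        · rw [htFi i]; exact Dvd.dvd.mul_right hqi _
        · rw [htFi j]; exact Dvd.dvd.mul_right hqj _
      · exact hsq.ne_zero
      · exact Finset.prod_ne_zero_iff.2 fun i _ => hti i
      · rw [← htF, hprod, ← Finset.prod_pow, ← Finset.prod_mul_distrib]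
        exact Finset.prod_congr rfl fun i _ => (htFi i).symm
    have h2 : |g| = |sf ((f.scaleRoots m).eval x)| * v ^ 2 := by
      rw [hv, abs_mul, abs_of_nonneg (sq_nonneg v)]
    have h3 : |sf ((f.scaleRoots m).eval x)| ≤ |g| := by
      rw [h2]
      apply le_mul_of_one_le_right (abs_nonneg _)
      have := Int.one_le_abs hv0
      rw [← sq_abs]
      nlinarith
    calc m * ∏ i, |sf (((F i).scaleRoots m).eval x)|
        ≤ m * ((R : ℤ) ^ (k + 1) * |sf ((f.scaleRoots m).eval x)|) :=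
          mul_le_mul_of_nonneg_left h1 hsgm.le
      _ ≤ m * ((R : ℤ) ^ (k + 1) * |g|) := by
          apply mul_le_mul_of_nonneg_left _ hsgm.le
          exact mul_le_mul_of_nonneg_left h3 (by positivity)
      _ = (R : ℤ) ^ (k + 1) * |D| := by rw [hDabs]; ring
      _ ≤ (R : ℤ) ^ (k + 1) * N := mul_le_mul_of_nonneg_left hDN (by positivity)

theorem bg2 (hPC : StPC) (hSF : StSF) : StBG2 := by
  classical
  intro n hn5
  have hSF' : ∀ e : ℕ, ∃ M N : ℕ, 3 ≤ e → ∀ (H : ℕ) (g : ℤ[X]) (D : ℚ[X]) (s : Finset (ℤ × ℤ)),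
      1 ≤ H → g.Monic → g.natDegree = e → (g.map (Int.castRingHom ℚ)).Separable →
      (∀ i, |g.coeff i| ≤ H) →
      (∀ θ : ℂ, aeval θ g = 0 → IsIntegral ℤ (aeval θ D) ∧ aeval θ D ≠ 0 ∧ ‖aeval θ D‖ ≤ H) →
      (∀ p ∈ s, 0 < p.2 ∧ p.2 ≤ H ∧ IsCoprime p.1 p.2 ∧ (2 * H : ℤ) ^ M < |p.1| ∧
        ∃ b : ℤ, b ≠ 0 ∧ ∃ B : ℚ[X], g.map (Int.castRingHom ℚ) ∣
          B ^ 2 - C (b : ℚ) * D * (C (p.1 : ℚ) - C (p.2 : ℚ) * X)) →
      s.card ≤ N := by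
    intro e
    by_cases he : 3 ≤ e
    · obtain ⟨M, N, h⟩ := hSF e he
      exact ⟨M, N, fun _ => h⟩
    · exact ⟨0, 0, fun h => absurd h he⟩
  choose Me Ne hMN using hSF'
  obtain ⟨M0, hM0⟩ : ∃ M0, ∀ e ≤ n, Me e ≤ M0 :=
    ⟨∑ e ∈ Finset.range (n + 1), Me e, fun e he => Finset.single_le_sum (f := Me)
      (fun _ _ => Nat.zero_le _) (Finset.mem_range.2 (by omega))⟩
  refine ⟨2 * M0 + 2, fun f hf hdeg hsep hfac ε hε => ?_⟩
  obtain ⟨k', F, hFm, hFi, hinj, hFf⟩ := exists_fin hf hsep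
  obtain ⟨k, rfl⟩ : ∃ k, k' = k + 1 := by
    rcases Nat.eq_zero_or_pos k' with h | h
    · subst h
      rw [hFf] at hdeg
      simp at hdeg
      omega
    · exact ⟨k' - 1, by omega⟩
  have hFd : ∀ j, (F j).natDegree + 3 ≤ n := fun j =>
    hfac _ (hFm j) (hFi j) (by rw [hFf]; exact Finset.dvd_prod_of_mem _ (Finset.mem_univ j))
  have hsplit : ∀ j, f = F j * ∏ i, F (j.succAbove i) := fun j => by
    rw [hFf, Fin.prod_univ_succAbove F j]
  have hG : ∀ j : Fin (k + 1), (∏ i, F (j.succAbove i)).Monic :=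
    fun j => monic_prod_of_monic _ _ fun i _ => hFm _
  have hGd : ∀ j : Fin (k + 1), (F j).natDegree + (∏ i, F (j.succAbove i)).natDegree = n := by
    intro j
    rw [← hdeg, hsplit j, (hFm j).natDegree_mul (hG j)]
  have hGd3 : ∀ j : Fin (k + 1), 3 ≤ (∏ i, F (j.succAbove i)).natDegree := by
    intro j
    have := hGd j
    have := hFd j
    omega
  have hk : 1 ≤ k := by
    rcases Nat.eq_zero_or_pos k with h | h
    · subst h
      have := hGd3 0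
      simp at this
    · exact h
  have hsepG : ∀ j : Fin (k + 1),
      ((∏ i, F (j.succAbove i)).map (Int.castRingHom ℚ)).Separable := by
    intro j
    apply Separable.of_dvd hsep
    rw [hsplit j, Polynomial.map_mul]
    exact dvd_mul_left _ _
  obtain ⟨R, hR, hR'⟩ := exists_R F hFm hFi hinj
  obtain ⟨B, hB⟩ := eval_ne_zero hf
  obtain ⟨sf, hsf⟩ := exists_sf
  obtain ⟨c, N0, hcN⟩ := classes hPC hk F hFm hFi hinj
    (Me := fun j => Me (∏ i, F (j.succAbove i)).natDegree)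
    (Ne := fun j => Ne (∏ i, F (j.succAbove i)).natDegree)
    (fun j => hMN _ (hGd3 j)) hsepG (M0 := M0)
    (fun j => hM0 _ (by have := hGd j; omega)) hR hsf
  -- the parameters
  obtain ⟨S0, hS0, hS0ε⟩ : ∃ S0 : ℕ, 1 ≤ S0 ∧ 2 / (S0 : ℝ) ≤ ε / 4 := by
    refine ⟨⌈8 / ε⌉₊ + 1, by omega, ?_⟩
    have h1 : 8 / ε ≤ (⌈8 / ε⌉₊ : ℝ) := Nat.le_ceil _
    have h2 : (0 : ℝ) < ((⌈8 / ε⌉₊ + 1 : ℕ) : ℝ) := by positivity
    rw [div_le_iff₀ h2]
    push_cast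
    rw [div_le_iff₀ hε] at h1
    nlinarith
  obtain ⟨T, hT0, hT⟩ := asym k k hk (ε / (4 * S0 * (c + 1) * R ^ (k + 1))) (by
    have : (0 : ℝ) < R := by exact_mod_cast hR
    have : (0 : ℝ) < S0 := by exact_mod_cast hS0
    positivity)
  obtain ⟨N1, hN1⟩ : ∃ N1 : ℕ, ∀ N : ℕ, N1 ≤ N → (S0 * c * T + 1 : ℝ) ≤ ε / 4 * N := by
    refine ⟨⌈(S0 * c * T + 1 : ℝ) / (ε / 4)⌉₊, fun N hN => ?_⟩
    have h1 : (S0 * c * T + 1 : ℝ) / (ε / 4) ≤ N := (Nat.le_ceil _).trans (by exact_mod_cast hN)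
    rw [div_le_iff₀ (by positivity)] at h1
    linarith
  obtain ⟨N2, hN2⟩ : ∃ N2 : ℕ, ∀ N : ℕ, N2 ≤ N → (2 * (Nat.sqrt N : ℝ)) ≤ ε / 4 * N := by
    refine ⟨(⌈8 / ε⌉₊) ^ 2, fun N hN => ?_⟩
    have h1 : ⌈8 / ε⌉₊ ≤ Nat.sqrt N := Nat.le_sqrt'.2 hN
    have h2 : 8 / ε ≤ (Nat.sqrt N : ℝ) := (Nat.le_ceil _).trans (by exact_mod_cast h1)
    rw [div_le_iff₀ hε] at h2
    have h3 : ((Nat.sqrt N : ℕ) : ℝ) * (Nat.sqrt N : ℕ) ≤ N := by exact_mod_cast Nat.sqrt_le N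
    have h4 : (0 : ℝ) ≤ (Nat.sqrt N : ℝ) := by positivity
    nlinarith
  refine ⟨N0 + N1 + N2 + B.toNat + 2, fun N hN => ?_⟩
  have hNpos : 1 ≤ N := by omega
  obtain ⟨Y, hYZ, hY⟩ := hcN N (by omega) hNpos
  have hNB : B < (N : ℤ) ^ (M0 + 1) := by
    have h1 : B < N := by omega
    have h2 : (N : ℤ) ≤ (N : ℤ) ^ (M0 + 1) := by
      exact_mod_cast Nat.le_self_pow (by omega) N
    omega
  -- the exceptional set
  set A3 : Set ℤ := {D : ℤ | D ∈ ExcG f (2 * M0 + 2) ∧ |D| ≤ N ∧ (N : ℤ) ≤ D ^ 2 ∧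
    ∀ s : ℕ, S0 < s → ¬ (s : ℤ) ^ 2 ∣ D} with hA3
  have hA3fin : A3.Finite := by
    apply (Set.finite_Icc (-(N : ℤ)) N).subset
    intro D hD
    exact abs_le.1 hD.2.1
  have hcover : {D : ℤ | D ∈ ExcG f (2 * M0 + 2) ∧ |D| ≤ N} ⊆ {D : ℤ | D ^ 2 < N} ∪
      {D : ℤ | D ≠ 0 ∧ |D| ≤ N ∧ ∃ s : ℕ, S0 < s ∧ (s : ℤ) ^ 2 ∣ D} ∪ A3 := by
    rintro D ⟨hD, hDN⟩
    by_cases h1 : D ^ 2 < N
    · exact Or.inl (Or.inl h1)
    · by_cases h2 : ∃ s : ℕ, S0 < s ∧ (s : ℤ) ^ 2 ∣ D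
      · exact Or.inl (Or.inr ⟨hD.1, hDN, h2⟩)
      · push Not at h1 h2
        exact Or.inr ⟨hD, hDN, h1, h2⟩
  have hA3card : A3.ncard ≤ S0 * (c * (Y * (Nat.log 2 Y + 1) ^ k)) := by
    have hdata : ∀ D : ℤ, ∃ x m v : ℤ, D ∈ A3 → 0 < m ∧ m ≤ N ∧ IsCoprime x m ∧ 1 ≤ v ∧
        D = sf ((f.scaleRoots m).eval x) * v ^ 2 * m ∧ (N : ℤ) ^ (M0 + 1) < |x| ∧
        (∀ i, ((F i).scaleRoots m).eval x ≠ 0) ∧
        m * ∏ i, |sf (((F i).scaleRoots m).eval x)| ≤ (R : ℤ) ^ (k + 1) * N := by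
      intro D
      by_cases hD : D ∈ A3
      · obtain ⟨⟨hD0, g, m, x, y, hmg, hm, hxm, hy, hx0⟩, hDN, hDN', -⟩ := hD
        obtain ⟨x, m, v, h⟩ := point_data' F hFf hR hR' hB hsf hNB hD0 hDN hDN' hmg hm hxm hy hx0
        exact ⟨x, m, v, fun _ => h⟩
      · exact ⟨0, 0, 0, fun h => absurd h hD⟩
    choose x m v hxmv using hdata
    set A3' := hA3fin.toFinset with hA3'
    have hmem : ∀ D, D ∈ A3' ↔ D ∈ A3 := fun D => Set.Finite.mem_toFinset _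
    set P : Finset (ℤ × ℤ) := A3'.image fun D => (x D, m D) with hP
    have hPcard := hY P (by
      intro p hp
      rw [hP, Finset.mem_image] at hp
      obtain ⟨D, hD, rfl⟩ := hp
      obtain ⟨h1, h2, h3, -, -, h6, h7, h8⟩ := hxmv D ((hmem D).1 hD)
      exact ⟨h1, h2, h3, h6, h7, h8⟩)
    have h1 : A3'.card ≤ ((Finset.Icc (1 : ℤ) S0) ×ˢ P).card := by
      apply Finset.card_le_card_of_injOn (fun D => (v D, (x D, m D)))
      · intro D hD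
        have hD' := (hmem D).1 hD
        obtain ⟨h1, h2, h3, h4, h5, -, -, -⟩ := hxmv D hD'
        rw [Finset.mem_coe, Finset.mem_product]
        refine ⟨?_, Finset.mem_image_of_mem _ hD⟩
        rw [Finset.mem_Icc]
        refine ⟨h4, ?_⟩
        by_contra hcon
        push Not at hcon
        apply hD'.2.2.2 (v D).toNat (by omega)
        have h6 : (((v D).toNat : ℕ) : ℤ) = v D := Int.toNat_of_nonneg (by omega)
        rw [h6]
        refine ⟨sf ((f.scaleRoots (m D)).eval (x D)) * m D, ?_⟩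
        conv_lhs => rw [h5]
        ring
      · intro D hD D' hD' heq
        obtain ⟨-, -, -, -, h5, -, -, -⟩ := hxmv D ((hmem D).1 hD)
        obtain ⟨-, -, -, -, h5', -, -, -⟩ := hxmv D' ((hmem D').1 hD')
        simp only [Prod.mk.injEq] at heq
        obtain ⟨e1, e2, e3⟩ := heq
        rw [h5, h5', e1, e2, e3]
    rw [Finset.card_product, Int.card_Icc] at h1
    have h2 : A3.ncard = A3'.card := Set.ncard_eq_toFinset_card _ _
    rw [h2]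
    calc A3'.card ≤ ((S0 : ℤ) + 1 - 1).toNat * P.card := h1
      _ = S0 * P.card := by
          congr 1
          omega
      _ ≤ _ := Nat.mul_le_mul_left _ hPcard
  have hfinU : ({D : ℤ | D ^ 2 < N} ∪
      {D : ℤ | D ≠ 0 ∧ |D| ≤ N ∧ ∃ s : ℕ, S0 < s ∧ (s : ℤ) ^ 2 ∣ D} ∪ A3).Finite := by
    apply (Set.finite_Icc (-(N : ℤ)) N).subset
    rintro D ((hD | hD) | hD)
    · have hD' : D ^ 2 < N := hD
      rw [Set.mem_Icc, ← abs_le]
      have h1 : |D| ≤ D ^ 2 := by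
        rw [← sq_abs]
        exact Int.le_self_sq _
      omega
    · exact abs_le.1 hD.2.1
    · exact abs_le.1 hD.2.1
  have hcard : Set.ncard {D : ℤ | D ∈ ExcG f (2 * M0 + 2) ∧ |D| ≤ N} ≤
      (2 * Nat.sqrt N + 1) +
      Set.ncard {D : ℤ | D ≠ 0 ∧ |D| ≤ N ∧ ∃ s : ℕ, S0 < s ∧ (s : ℤ) ^ 2 ∣ D} +
      S0 * (c * (Y * (Nat.log 2 Y + 1) ^ k)) := by
    refine (Set.ncard_le_ncard hcover hfinU).trans ?_
    refine (Set.ncard_union_le _ _).trans ?_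
    refine Nat.add_le_add ?_ hA3card
    refine (Set.ncard_union_le _ _).trans ?_
    exact Nat.add_le_add (card_small N) le_rfl
  have hcard' : (Set.ncard {D : ℤ | D ∈ ExcG f (2 * M0 + 2) ∧ |D| ≤ N} : ℝ) ≤
      (2 * (Nat.sqrt N : ℝ) + 1) +
      (Set.ncard {D : ℤ | D ≠ 0 ∧ |D| ≤ N ∧ ∃ s : ℕ, S0 < s ∧ (s : ℤ) ^ 2 ∣ D} : ℝ) +
      S0 * (c * (Y * ((Nat.log 2 Y : ℝ) + 1) ^ k)) := by exact_mod_cast hcard
  have hsq := card_large_sq S0 hS0 N
  have hsq' : 2 * (N : ℝ) / S0 ≤ ε / 4 * N := by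
    calc 2 * (N : ℝ) / S0 = (2 / (S0 : ℝ)) * N := by ring
      _ ≤ ε / 4 * N := mul_le_mul_of_nonneg_right hS0ε (by positivity)
  have hT' := hT Y (R ^ (k + 1) * N) hYZ
  have hlast : (S0 : ℝ) * (c * (Y * ((Nat.log 2 Y : ℝ) + 1) ^ k)) ≤ ε / 4 * N + S0 * c * T := by
    have hRpos : (0 : ℝ) < R := by exact_mod_cast hR
    have hS0pos : (0 : ℝ) < S0 := by exact_mod_cast hS0
    calc (S0 : ℝ) * (c * (Y * ((Nat.log 2 Y : ℝ) + 1) ^ k))
        ≤ S0 * (c * (ε / (4 * S0 * (c + 1) * R ^ (k + 1)) * ((R ^ (k + 1) * N : ℕ) : ℝ) + T)) := by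
          gcongr
      _ = (c / (c + 1)) * (ε / 4 * N) + S0 * c * T := by
          push_cast
          field_simp
      _ ≤ 1 * (ε / 4 * N) + S0 * c * T := by
          have : (c : ℝ) / (c + 1) ≤ 1 := by
            rw [div_le_one (by positivity)]
            linarith
          have h2 : 0 ≤ ε / 4 * (N : ℝ) := by positivity
          linarith [mul_le_mul_of_nonneg_right this h2]
      _ = ε / 4 * N + S0 * c * T := by ring
  have h1 := hN1 N (by omega)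
  have h2 := hN2 N (by omega)
  linarith

end Pool.Agent.K7.H23.AT
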