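import Mathlib

/-!
Project AT (MP_d88658_nt): the height bound for almost all quadratic twists. Statements of the jobs.

`(f.scaleRoots m).eval x = ∑ a_i x^i m^(n-i)` is the value at `(x, m)` of the homogenisation of `f`.
-/

open Polynomial

set_option autoImplicit false

namespace Pool.Agent.K7.H23.AT

/-- Job CL (classes of the 2-descent with small representatives). -/
def StCL : Prop :=
  ∀ f : ℤ[X], f.Monic → Irreducible f → ∃ c : ℕ, ∀ Y : ℕ, 1 ≤ Y →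
    ∃ S : Finset ℚ[X], S.card ≤ c * Y ∧
      (∀ D ∈ S, ∀ θ : ℂ, aeval θ f = 0 →
        IsIntegral ℤ (aeval θ D) ∧ aeval θ D ≠ 0 ∧ ‖aeval θ D‖ ≤ c * Y) ∧
      ∀ x m g y : ℤ, m ≠ 0 → IsCoprime x m → Squarefree g → |g| ≤ Y → y ≠ 0 →
        (f.scaleRoots m).eval x = g * y ^ 2 →
        ∃ D ∈ S, ∃ B : ℚ[X], f.map (Int.castRingHom ℚ) ∣
          B ^ 2 - D * (C (x : ℚ) - C (m : ℚ) * X)

/-- Job DE (the numbers composed of the primes modulo which `f` has a root and of primes up to `K`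
have density zero). -/
def StDE : Prop :=
  ∀ f : ℤ[X], f.Monic → Irreducible f → 2 ≤ f.natDegree → ∀ (K : ℕ) (ε : ℝ), 0 < ε →
    ∃ N₀ : ℕ, ∀ N : ℕ, N₀ ≤ N →
      (Set.ncard {D : ℕ | 1 ≤ D ∧ D ≤ N ∧ ∀ p : ℕ, p.Prime → p ∣ D → K < p →
        ∃ r : ℤ, (p : ℤ) ∣ f.eval r} : ℝ) ≤ ε * N

/-- Job SF (few large points in a class with a small representative, for all twists together). -/
def StSF : Prop :=
  ∀ e : ℕ, 3 ≤ e → ∃ M N : ℕ, ∀ (H : ℕ) (g : ℤ[X]) (D : ℚ[X]) (s : Finset (ℤ × ℤ)), 1 ≤ H →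
    g.Monic → g.natDegree = e → (g.map (Int.castRingHom ℚ)).Separable → (∀ i, |g.coeff i| ≤ H) →
    (∀ θ : ℂ, aeval θ g = 0 → IsIntegral ℤ (aeval θ D) ∧ aeval θ D ≠ 0 ∧ ‖aeval θ D‖ ≤ H) →
    (∀ p ∈ s, 0 < p.2 ∧ p.2 ≤ H ∧ IsCoprime p.1 p.2 ∧ (2 * H : ℤ) ^ M < |p.1| ∧
      ∃ b : ℤ, b ≠ 0 ∧ ∃ B : ℚ[X], g.map (Int.castRingHom ℚ) ∣
        B ^ 2 - C (b : ℚ) * D * (C (p.1 : ℚ) - C (p.2 : ℚ) * X)) →
    s.card ≤ N

end Pool.Agent.K7.H23.AT
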