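import Pool.Agent.Y910.F.K5
import Pool.Agent.K7.H23.AT.Stm

/-!
Project AT: the curve for one datum and all scalings of the polynomial.
-/

open Polynomial IntermediateField

set_option autoImplicit false

namespace Pool.Agent.K7.H23.AT

open Pool.Agent.H322R2 Pool.Agent.Y910.G Pool.Agent.Y910.R Pool.Agent.Y910.E Pool.Agent.Y910.A
open Pool.Agent.Y910.F

lemma scale_sep (g : ℤ[X]) (hg : g.Monic) (hsep : (g.map (Int.castRingHom ℚ)).Separable) (m : ℤ)
    (hm : m ≠ 0) : ((g.scaleRoots m).map (Int.castRingHom ℚ)).Separable := by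
  rw [map_scaleRoots _ _ _ (by rw [hg.leadingCoeff]; simp)]
  have hmQ : IsUnit ((Int.castRingHom ℚ) m) := by
    rw [isUnit_iff_ne_zero]
    simpa using hm
  have hder : ∀ p : ℚ[X], derivative (p.scaleRoots ((Int.castRingHom ℚ) m)) =
      (derivative p).scaleRoots ((Int.castRingHom ℚ) m) := by
    intro p
    ext i
    rw [coeff_derivative, coeff_scaleRoots, coeff_scaleRoots, coeff_derivative,
      natDegree_derivative]
    by_cases h : p.natDegree < i + 1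
    · rw [coeff_eq_zero_of_natDegree_lt h]
      ring
    · have : p.natDegree - (i + 1) = p.natDegree - 1 - i := by omega
      rw [this]
      ring
  unfold Separable at hsep ⊢
  rw [hder]
  exact isCoprime_scaleRoots _ _ _ hmQ hsep

theorem cdataS (hSG : StSG) (hINT : StINT) (hGEN : StGEN) (d : ℕ) (hd : 3 ≤ d) (i0 i1 : Fin d)
    (hi : i0.1 = 0 ∧ i1.1 = 1) : ∃ m2 : ℕ, 1 ≤ m2 ∧
    ∀ (H : ℕ) (g : ℤ[X]) (D : ℚ[X]), 1 ≤ H → g.Monic → g.natDegree = d →
    (g.map (Int.castRingHom ℚ)).Separable → (∀ i, |g.coeff i| ≤ H) →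
    (∀ θ : ℂ, aeval θ g = 0 → IsIntegral ℤ (aeval θ D) ∧ aeval θ D ≠ 0 ∧ ‖aeval θ D‖ ≤ H) →
    ∃ (w : ℕ) (θ u : Fin d → ℂ), Function.Injective θ ∧
      (∀ i, aeval (θ i) g = 0) ∧ (∀ F : ℂ → ℂ, ∑ i, F (θ i) =
        ∑ r ∈ ((g.map (Int.castRingHom ℚ)).map (algebraMap ℚ ℂ)).roots.toFinset, F r) ∧
      (∀ i, u i ≠ 0) ∧ (∀ i, u i = wt d w (θ i) ^ 2 * aeval (θ i) D) ∧
      (∀ c : Fin d → ℂ, (∀ i, c i ^ 2 = u i) →
        (∑ i, c i) ^ 2 ≠ (∑ i, c i - 2 * c i0) ^ 2 ∧ (∑ i, c i) ^ 2 ≠ (∑ i, c i - 2 * c i1) ^ 2 ∧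
        (∑ i, c i - 2 * c i0) ^ 2 ≠ (∑ i, c i - 2 * c i1) ^ 2) ∧
      ∀ m : ℤ, m ≠ 0 → |m| ≤ H → ∃ F : ℤ[X][X],
      F.Monic ∧ F.natDegree = 2 ^ d ∧ F.map (mapRingHom (Int.castRingHom ℂ)) =
        sg (List.ofFn fun i => C (u i) * (X - C ((m : ℂ) * θ i))) ∧
      pn (pn zn) F ≤ (((2 * H) ^ m2 : ℕ) : ℝ) := by
  classical
  let i2 : Fin d := ⟨2, by omega⟩
  obtain ⟨M0, hM0⟩ := hGEN d i0 i1 i2 (by intro h; rw [h] at hi; omega)
    (by intro h; rw [h] at hi; exact absurd hi.1 (by simp [i2]))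
    (by intro h; rw [h] at hi; exact absurd hi.2 (by simp [i2]))
  -- the bound
  have hbd : ∃ m2 : ℕ, 1 ≤ m2 ∧ ∀ (H : ℕ) (g : ℤ[X]) (D : ℚ[X]) (w : ℕ) (θ : Fin d → ℂ) (m : ℤ),
      1 ≤ H → g.Monic → g.natDegree = d → (g.map (Int.castRingHom ℚ)).Separable →
      (∀ i, |g.coeff i| ≤ H) →
      (∀ θ : ℂ, aeval θ g = 0 → IsIntegral ℤ (aeval θ D) ∧ aeval θ D ≠ 0 ∧ ‖aeval θ D‖ ≤ H) →
      w ≤ M0 → (∀ i, aeval (θ i) g = 0) → |m| ≤ H → ∀ F : ℤ[X][X], F.natDegree = 2 ^ d →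
      F.map (mapRingHom (Int.castRingHom ℂ)) =
        sg (List.ofFn fun i => C (wt d w (θ i) ^ 2 * aeval (θ i) D) * (X - C ((m : ℂ) * θ i))) →
      pn (pn zn) F ≤ (((2 * H) ^ m2 : ℕ) : ℝ) := by
    by_contra hcon
    push Not at hcon
    choose H g D w θ m hH hmon hdeg hsep hcoef hD hw hθ0 hm F hFd hFs hno using
      fun M : ℕ => hcon (M + 1) (by omega)
    let S : Sca := ⟨fun n => 2 * H n, fun n => by have := hH n; omega⟩
    have hg0 : ∀ n, g n ≠ 0 := fun n => (hmon n).ne_zero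
    -- bounded sequences
    have hθB : ∀ i, (fun n => θ n i) ∈ BB S := by
      intro i
      refine ⟨1, fun n => ?_⟩
      rw [pow_one]
      exact root_bound (g n) (H n) (hg0 n) (hcoef n) (hH n) _ (hθ0 n i)
    have hHT : ∀ n, (H n : ℝ) ≤ (S.T n : ℝ) ^ 1 := by
      intro n
      rw [pow_one]
      change (H n : ℝ) ≤ ((2 * H n : ℕ) : ℝ)
      push_cast
      have : (0 : ℝ) ≤ H n := by positivity
      linarith
    have hDB : ∀ i, (fun n => aeval (θ n i) (D n)) ∈ BB S := fun i =>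
      ⟨1, fun n => ((hD n _ (hθ0 n i)).2.2).trans (hHT n)⟩
    have hmB : (fun n => (m n : ℂ)) ∈ BB S := by
      refine ⟨1, fun n => ?_⟩
      rw [Complex.norm_intCast]
      refine le_trans ?_ (hHT n)
      exact_mod_cast hm n
    have hwB : (fun n => (w n : ℂ)) ∈ BB S := by
      refine ⟨M0, fun n => ?_⟩
      rw [Complex.norm_natCast]
      have h1 : w n ≤ 2 ^ M0 := (hw n).trans (Nat.lt_two_pow_self).le
      have h2 : 2 ^ M0 ≤ S.T n ^ M0 := Nat.pow_le_pow_left (S.hT n) _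
      exact_mod_cast h1.trans h2
    have huB : ∀ i, (fun n => wt d (w n) (θ n i) ^ 2 * aeval (θ n i) (D n)) ∈ BB S := by
      intro i
      have h1 : (fun n => wt d (w n) (θ n i) ^ 2 * aeval (θ n i) (D n)) =
          (∑ l ∈ Finset.range d, (fun n => (w n : ℂ)) ^ l *
          (fun n => θ n i) ^ l) ^ 2 * (fun n => aeval (θ n i) (D n)) := by
        ext n
        rw [wt]
        simp only [Pi.mul_apply, Pi.pow_apply, Finset.sum_apply]
      rw [h1]
      exact mul_mem (pow_mem (sum_mem fun l _ => mul_mem (pow_mem hwB _) (pow_mem (hθB i) _)) _)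
        (hDB i)
    have hmθB : ∀ i, (fun n => (m n : ℂ) * θ n i) ∈ BB S := fun i => mul_mem hmB (hθB i)
    obtain ⟨m1, hm1⟩ := coeff_bound hSG S
      (fun n i => wt d (w n) (θ n i) ^ 2 * aeval (θ n i) (D n)) (fun n i => (m n : ℂ) * θ n i)
      huB hmθB
    obtain ⟨m2, hm2⟩ : ∃ m2, m2 = m1 + 2 * (d + 1) := ⟨_, rfl⟩
    have hFc : ∀ n i j, (((F n).coeff j).coeff i : ℂ) =
        ((sg (List.ofFn fun i => C (wt d (w n) (θ n i) ^ 2 * aeval (θ n i) (D n)) *
          (X - C ((m n : ℂ) * θ n i)))).coeff j).coeff i := by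
      intro n i j
      rw [← hFs n, coeff_map, coe_mapRingHom, coeff_map]
      rfl
    have hFdeg : ∀ n j, ((F n).coeff j).natDegree ≤ 2 ^ d := by
      intro n j
      have h1 : ((F n).coeff j).natDegree =
          ((sg (List.ofFn fun i => C (wt d (w n) (θ n i) ^ 2 * aeval (θ n i) (D n)) *
            (X - C ((m n : ℂ) * θ n i)))).coeff j).natDegree := by
        rw [← hFs n, coeff_map, coe_mapRingHom,
          natDegree_map_eq_of_injective (RingHom.injective_int _)]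
      rw [h1]
      have h2 := sg_coeff_natDegree (List.ofFn fun i =>
        C (wt d (w n) (θ n i) ^ 2 * aeval (θ n i) (D n)) * (X - C ((m n : ℂ) * θ n i))) (by
        intro w hw
        rw [List.mem_ofFn] at hw
        obtain ⟨i, rfl⟩ := hw
        exact (natDegree_C_mul_le _ _).trans (natDegree_X_sub_C _).le) j
      rwa [List.length_ofFn] at h2
    have hpn : ∀ n, pn (pn zn) (F n) ≤ ((S.T n ^ m2 : ℕ) : ℝ) := by
      intro n
      refine (pn_le (F n) (2 ^ d) (2 ^ d) (hFd n).le (hFdeg n) ((S.T n : ℝ) ^ m1) ?_).trans ?_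
      · intro i j
        have h1 := hm1 n i j
        rw [← hFc n i j, Complex.norm_intCast] at h1
        exact h1
      · have h2 : ((2 ^ d + 1 : ℕ) : ℝ) ≤ (S.T n : ℝ) ^ (d + 1) := by
          have h3 : 2 ^ d + 1 ≤ 2 ^ (d + 1) := by
            rw [pow_succ]
            have : 1 ≤ 2 ^ d := Nat.one_le_two_pow
            omega
          have h4 : 2 ^ (d + 1) ≤ S.T n ^ (d + 1) := Nat.pow_le_pow_left (S.hT n) _
          exact_mod_cast h3.trans h4
        push_cast at h2 ⊢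
        calc ((2 : ℝ) ^ d + 1) * ((2 ^ d + 1) * (S.T n : ℝ) ^ m1)
            ≤ (S.T n : ℝ) ^ (d + 1) * ((S.T n : ℝ) ^ (d + 1) * (S.T n : ℝ) ^ m1) := by gcongr
          _ = (S.T n : ℝ) ^ m2 := by
              rw [hm2, ← pow_add, ← pow_add]
              congr 1
              omega
    have hpow : pn (pn zn) (F m2) ≤ (((2 * H m2) ^ (m2 + 1) : ℕ) : ℝ) := by
      refine (hpn m2).trans ?_
      have h1 : (2 * H m2) ^ m2 ≤ (2 * H m2) ^ (m2 + 1) :=
        Nat.pow_le_pow_right (by have := hH m2; omega) (by omega)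
      have h2 : S.T m2 ^ m2 = (2 * H m2) ^ m2 := rfl
      rw [h2]
      exact_mod_cast h1
    exact absurd hpow (not_le.2 (hno m2))
  obtain ⟨m2, hm2, hbd⟩ := hbd
  refine ⟨m2, hm2, ?_⟩
  intro H g D hH hmon hdeg hsep hcoef hD
  obtain ⟨θ, hθi, hθ0, hθs⟩ := exists_enum g hsep d hdeg
  have hsq : ∀ i, ∃ v : ℂ, v ^ 2 = aeval (θ i) D :=
    fun i => IsAlgClosed.exists_pow_nat_eq _ (by norm_num)
  choose v hv using hsq
  have hv0 : ∀ i, v i ≠ 0 := by
    intro i h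
    have h1 := hv i
    rw [h, zero_pow two_ne_zero] at h1
    exact (hD _ (hθ0 i)).2.1 h1.symm
  obtain ⟨w, hw, hwt, hgen⟩ := hM0 θ v hθi hv0
  have hθint : ∀ i, IsIntegral ℤ (θ i) := fun i => ⟨g, hmon, hθ0 i⟩
  have hz : ∀ n : ℤ, IsIntegral ℤ (n : ℂ) := fun n => isIntegral_algebraMap (R := ℤ) (x := n)
  have hwint : ∀ i, IsIntegral ℤ (wt d w (θ i)) := by
    intro i
    rw [wt]
    apply IsIntegral.sum
    intro l _
    have h1 : ((w : ℂ)) = ((w : ℤ) : ℂ) := by push_cast; rfl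
    rw [h1]
    exact ((hz _).pow _).mul ((hθint i).pow _)
  refine ⟨w, θ, fun i => wt d w (θ i) ^ 2 * aeval (θ i) D, hθi, hθ0, hθs, ?_, fun _ => rfl, ?_, ?_⟩
  · intro i
    exact mul_ne_zero (pow_ne_zero _ (hwt i)) (hD _ (hθ0 i)).2.1
  · intro c hc
    exact hgen c (fun i => by rw [hc i, mul_pow, hv])
  · intro m hm0 hmH
    have hmQ : (m : ℚ) ≠ 0 := by exact_mod_cast hm0
    have hmC : (m : ℂ) ≠ 0 := by exact_mod_cast hm0
    obtain ⟨Q, hQ⟩ : ∃ Q : ℚ[X], Q = (wp d w ^ 2 * D).comp (C (1 / (m : ℚ)) * X) := ⟨_, rfl⟩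
    have hQu : ∀ i, aeval ((m : ℂ) * θ i) Q = wt d w (θ i) ^ 2 * aeval (θ i) D := by
      intro i
      rw [hQ, aeval_comp]
      have h1 : aeval ((m : ℂ) * θ i) (C (1 / (m : ℚ)) * X) = θ i := by
        rw [map_mul, aeval_C, aeval_X]
        simp only [one_div, map_inv₀, map_intCast]
        field_simp
      rw [h1, map_mul, map_pow, wp_eval]
    obtain ⟨F, h1, h2, h3⟩ := hINT d (g.scaleRoots m) (by rw [natDegree_scaleRoots, hdeg])
      (scale_sep g hmon hsep m hm0) (fun i => (m : ℂ) * θ i)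
      (fun i j hij => hθi (mul_left_cancel₀ hmC hij))
      (fun i => by
        have := scaleRoots_aeval_eq_zero (r := m) (hθ0 i)
        simpa using this) Q
      (fun i => by
        rw [hQu]
        exact ((hwint i).pow 2).mul (hD _ (hθ0 i)).1)
      (fun i => by
        rw [hQu]
        exact (((hwint i).pow 2).mul (hD _ (hθ0 i)).1).mul ((hz m).mul (hθint i)))
    have h4 : F.map (mapRingHom (Int.castRingHom ℂ)) =
        sg (List.ofFn fun i => C (wt d w (θ i) ^ 2 * aeval (θ i) D) * (X - C ((m : ℂ) * θ i))) := by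
      rw [h3]
      congr 2
      ext1 i
      rw [hQu]
    exact ⟨F, h1, h2, h4, hbd H g D w θ m hH hmon hdeg hsep hcoef hD hw hθ0 hmH F h2 h4⟩

end Pool.Agent.K7.H23.AT
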