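import Pool.Agent.K7.H23.AT.Stm4

/-!
Project AT: reduction to monic polynomials, and the two families.
-/

open Polynomial Filter Topology

set_option autoImplicit false

namespace Pool.Agent.K7.H23.AT

lemma eval_scale (f : ℤ[X]) (m x : ℤ) : (f.scaleRoots m).eval x =
    ∑ i ∈ Finset.range (f.natDegree + 1), f.coeff i * m ^ (f.natDegree - i) * x ^ i := by
  rw [eval_eq_sum_range, natDegree_scaleRoots]
  simp only [coeff_scaleRoots]

lemma norm_eval (f : ℤ[X]) (hn : 1 ≤ f.natDegree) (m x : ℤ) :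
    ((integralNormalization f).scaleRoots m).eval (f.leadingCoeff * x) =
      f.leadingCoeff ^ (f.natDegree - 1) * (f.scaleRoots m).eval x := by
  rw [eval_scale, eval_scale, natDegree_integralNormalization, Finset.mul_sum]
  refine Finset.sum_congr rfl fun i _ => ?_
  have h1 := integralNormalization_coeff_mul_leadingCoeff_pow (p := f) i hn
  calc (integralNormalization f).coeff i * m ^ (f.natDegree - i) * (f.leadingCoeff * x) ^ i
      = ((integralNormalization f).coeff i * f.leadingCoeff ^ i) * (m ^ (f.natDegree - i) * x ^ i) := by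
        rw [mul_pow]; ring
    _ = _ := by rw [h1]; ring

lemma scaleRoots_comp (q : ℚ[X]) (a : ℚ) (ha : a ≠ 0) :
    q.scaleRoots a = C (a ^ q.natDegree) * q.comp (C a⁻¹ * X) := by
  ext i
  rw [coeff_scaleRoots, coeff_C_mul, comp_C_mul_X_coeff]
  by_cases h : i ≤ q.natDegree
  · have h1 : a ^ q.natDegree = a ^ (q.natDegree - i) * a ^ i := by
      rw [← pow_add]
      congr 1
      omega
    rw [h1, inv_pow]
    field_simp
  · rw [coeff_eq_zero_of_natDegree_lt (by omega)]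
    ring

lemma irreducible_scale (q : ℚ[X]) (a : ℚ) (ha : a ≠ 0) (hq : Irreducible q) :
    Irreducible (q.scaleRoots a) := by
  rw [scaleRoots_comp q a ha]
  have hu : IsUnit (C (a ^ q.natDegree) : ℚ[X]) := isUnit_C.2 (isUnit_iff_ne_zero.2 (pow_ne_zero _ ha))
  rw [irreducible_isUnit_mul hu]
  have hai : a⁻¹ ≠ 0 := inv_ne_zero ha
  let _ : Invertible a⁻¹ := invertibleOfNonzero hai
  have h1 := (MulEquiv.irreducible_iff (algEquivCMulXAddC (a⁻¹) (0 : ℚ))).2 hq
  have h2 : (algEquivCMulXAddC (a⁻¹) (0 : ℚ)) q = q.comp (C a⁻¹ * X) := by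
    rw [algEquivCMulXAddC_apply]
    simp [aeval_eq_sum_range, comp, eval₂_eq_sum_range, smul_eq_C_mul]
  rw [h2] at h1
  exact h1

lemma map_norm (f : ℤ[X]) (hf : f ≠ 0) :
    (integralNormalization f).map (Int.castRingHom ℚ) * C (f.leadingCoeff : ℚ) =
      (f.map (Int.castRingHom ℚ)).scaleRoots (f.leadingCoeff : ℚ) := by
  have hlc : (Int.castRingHom ℚ) f.leadingCoeff ≠ 0 := by
    simpa using hf
  have h1 := congrArg (Polynomial.map (Int.castRingHom ℚ)) (integralNormalization_mul_C_leadingCoeff f)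
  rw [Polynomial.map_mul, map_C, map_scaleRoots _ _ _ hlc] at h1
  exact h1

lemma norm_sep (f : ℤ[X]) (hf : f ≠ 0) (hsep : (f.map (Int.castRingHom ℚ)).Separable) :
    ((integralNormalization f).map (Int.castRingHom ℚ)).Separable := by
  have hlc : (f.leadingCoeff : ℚ) ≠ 0 := by
    simpa using hf
  have h1 : ((f.map (Int.castRingHom ℚ)).scaleRoots (f.leadingCoeff : ℚ)).Separable := by
    have hder : ∀ p : ℚ[X], derivative (p.scaleRoots (f.leadingCoeff : ℚ)) =
        (derivative p).scaleRoots (f.leadingCoeff : ℚ) := by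
      intro p
      ext i
      rw [coeff_derivative, coeff_scaleRoots, coeff_scaleRoots, coeff_derivative,
        natDegree_derivative]
      by_cases h : p.natDegree < i + 1
      · rw [coeff_eq_zero_of_natDegree_lt h]
        ring
      · have : p.natDegree - (i + 1) = p.natDegree - 1 - i := by omega
        rw [this]
        ring
    unfold Separable at hsep ⊢
    rw [hder]
    exact isCoprime_scaleRoots _ _ _ (isUnit_iff_ne_zero.2 hlc) hsep
  rw [← map_norm f hf] at h1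
  exact h1.of_mul_left

lemma norm_irr (f : ℤ[X]) (hf : f ≠ 0) (hirr : Irreducible (f.map (Int.castRingHom ℚ))) :
    Irreducible (integralNormalization f) := by
  have hlc : (f.leadingCoeff : ℚ) ≠ 0 := by
    simpa using hf
  have h1 := irreducible_scale _ _ hlc hirr
  rw [← map_norm f hf] at h1
  have hu : IsUnit (C (f.leadingCoeff : ℚ) : ℚ[X]) := isUnit_C.2 (isUnit_iff_ne_zero.2 hlc)
  rw [irreducible_mul_isUnit hu] at h1
  exact ((monic_integralNormalization hf).irreducible_iff_irreducible_map_fraction_map (K := ℚ)).2 h1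

/-- the second family: `y² = D f(x)` -/
def Exc2 (f : ℤ[X]) (M : ℕ) : Set ℤ :=
  {D : ℤ | D ≠ 0 ∧ ∃ x y : ℤ, y ^ 2 = D * f.eval x ∧ |D| ^ M < |x|}

lemma exc_sub (f : ℤ[X]) (hn : Odd f.natDegree) (hf : f ≠ 0) (M : ℕ) :
    Exc f (M + 1) ⊆ ExcG (integralNormalization f) M := by
  intro D hD
  obtain ⟨hD0, x0, y0, hy, hx⟩ := hD
  obtain ⟨k, hk⟩ := hn
  obtain ⟨a, ha⟩ : ∃ a, a = f.leadingCoeff := ⟨_, rfl⟩
  have ha0 : a ≠ 0 := by rw [ha]; exact leadingCoeff_ne_zero.2 hf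
  have hX0 : x0 ≠ 0 := by
    rintro rfl
    rw [abs_zero] at hx
    exact absurd hx (not_lt.2 (by positivity))
  -- the point of the normalised curve
  have hpt : (a ^ k * y0) ^ 2 = ((integralNormalization f).scaleRoots D).eval (a * x0) := by
    rw [ha, norm_eval f (by omega), ← hy, mul_pow, ← pow_mul]
    congr 2
    omega
  -- the greatest common divisor with the sign of D
  obtain ⟨d, hd⟩ : ∃ d : ℤ, d = Int.gcd (a * x0) D := ⟨_, rfl⟩
  have hd0 : 0 < d := by
    rw [hd]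
    exact_mod_cast Int.gcd_pos_of_ne_zero_right _ hD0
  obtain ⟨g, hg⟩ : ∃ g : ℤ, g = Int.sign D * d := ⟨_, rfl⟩
  have hsg : Int.sign D * Int.sign D = 1 := by
    rcases lt_trichotomy D 0 with h | h | h
    · rw [Int.sign_eq_neg_one_of_neg h]; norm_num
    · exact absurd h hD0
    · rw [Int.sign_eq_one_of_pos h]; norm_num
  have hgabs : |g| = d := by
    rw [hg, abs_mul, abs_of_pos hd0]
    rcases lt_trichotomy D 0 with h | h | h
    · rw [Int.sign_eq_neg_one_of_neg h]; norm_num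
    · exact absurd h hD0
    · rw [Int.sign_eq_one_of_pos h]; norm_num
  have hg0 : g ≠ 0 := by
    rintro rfl
    rw [abs_zero] at hgabs
    omega
  have hda : d ∣ a * x0 := by rw [hd]; exact Int.gcd_dvd_left _ _
  have hdD : d ∣ D := by rw [hd]; exact Int.gcd_dvd_right _ _
  obtain ⟨x', hx'⟩ := hda
  obtain ⟨m', hm'⟩ := hdD
  obtain ⟨x, hxd⟩ : ∃ x, x = Int.sign D * x' := ⟨_, rfl⟩
  obtain ⟨m, hmd⟩ : ∃ m, m = Int.sign D * m' := ⟨_, rfl⟩
  have hgx : a * x0 = g * x := by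
    rw [hg, hxd, hx']
    linear_combination (-(d * x')) * hsg
  have hgm : D = g * m := by
    rw [hg, hmd]
    nth_rewrite 1 [hm']
    linear_combination (-(d * m')) * hsg
  have hm0 : 0 < m := by
    have h1 : 0 < |D| := abs_pos.2 hD0
    have h2 : |D| = d * m := by
      have h3 : |D| = Int.sign D * D := by
        rcases lt_trichotomy D 0 with h | h | h
        · rw [Int.sign_eq_neg_one_of_neg h, abs_of_neg h]; ring
        · exact absurd h hD0
        · rw [Int.sign_eq_one_of_pos h, abs_of_pos h]; ring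
      rw [h3]
      nth_rewrite 2 [hm']
      rw [hmd]
      ring
    rw [h2] at h1
    exact (pos_iff_pos_of_mul_pos h1).1 hd0
  have hcop' : IsCoprime x' m' := by
    have h1 : Int.gcd (a * x0) D = d := hd.symm
    have h2 : Int.gcd x' m' = 1 := by
      have h3 : (Int.gcd (d * x') (d * m') : ℤ) = d := by rw [← hx', ← hm', h1]
      rw [Int.gcd_mul_left] at h3
      push_cast at h3
      rw [abs_of_pos hd0] at h3
      have h4 : ((Int.gcd x' m' : ℕ) : ℤ) = 1 := by
        have := mul_left_cancel₀ hd0.ne' (h3.trans (mul_one d).symm)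
        exact this
      exact_mod_cast h4
    exact Int.isCoprime_iff_gcd_eq_one.2 h2
  have hcop : IsCoprime x m := by
    obtain ⟨u, v, huv⟩ := hcop'
    refine ⟨u * Int.sign D, v * Int.sign D, ?_⟩
    rw [hxd, hmd]
    linear_combination huv + (u * x' + v * m') * hsg
  -- the homogenisation
  have hhom : ((integralNormalization f).scaleRoots D).eval (a * x0) =
      g ^ (2 * k + 1) * ((integralNormalization f).scaleRoots m).eval x := by
    rw [hgx, hgm, eval_scale, eval_scale, natDegree_integralNormalization, hk, Finset.mul_sum]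
    refine Finset.sum_congr rfl fun i hi => ?_
    rw [Finset.mem_range] at hi
    have h1 : g ^ (2 * k + 1) = g ^ (2 * k + 1 - i) * g ^ i := by
      rw [← pow_add]
      congr 1
      omega
    rw [mul_pow, mul_pow, h1]
    ring
  rw [hhom] at hpt
  have hdvd : g ^ k ∣ a ^ k * y0 := by
    rw [← Int.pow_dvd_pow_iff (two_ne_zero), hpt, ← pow_mul]
    refine ⟨g * ((integralNormalization f).scaleRoots m).eval x, ?_⟩
    rw [← mul_assoc, ← pow_succ, mul_comm k 2]
  obtain ⟨z, hz⟩ := hdvd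
  refine ⟨hD0, g, m, x, z, hgm, hm0, hcop, ?_, ?_⟩
  · have h1 : (g ^ k) ^ 2 * z ^ 2 = (g ^ k) ^ 2 *
        (g * ((integralNormalization f).scaleRoots m).eval x) := by
      rw [← mul_pow, ← hz, hpt]
      ring
    exact mul_left_cancel₀ (pow_ne_zero 2 (pow_ne_zero k hg0)) h1
  · -- the size
    have hgD : |g| ≤ |D| := by
      rw [hgm, abs_mul, abs_of_pos hm0]
      have : 0 ≤ |g| := abs_nonneg g
      nlinarith
    have h1 : |x0| ≤ |g| * |x| := by
      rw [← abs_mul, ← hgx, abs_mul]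
      have h2 : 1 ≤ |a| := Int.one_le_abs ha0
      have h3 := abs_nonneg x0
      nlinarith
    have h2 : |D| ^ M * |D| < |D| * |x| := by
      calc |D| ^ M * |D| = |D| ^ (M + 1) := (pow_succ _ _).symm
        _ < |x0| := hx
        _ ≤ |g| * |x| := h1
        _ ≤ |D| * |x| := mul_le_mul_of_nonneg_right hgD (abs_nonneg _)
    rw [mul_comm] at h2
    exact lt_of_mul_lt_mul_left h2 (abs_nonneg _)

lemma exc2_mem (f : ℤ[X]) (hn : 1 ≤ f.natDegree) (hf : f ≠ 0) (M : ℕ) (D : ℤ)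
    (hD : D ∈ Exc2 f (2 * M)) (hbig : |f.leadingCoeff| ^ (f.natDegree + 1) ≤ |D|) :
    f.leadingCoeff ^ (f.natDegree + 1) * D ∈ ExcG (integralNormalization f) M := by
  obtain ⟨hD0, x0, y0, hy, hx⟩ := hD
  obtain ⟨a, ha⟩ : ∃ a, a = f.leadingCoeff := ⟨_, rfl⟩
  rw [← ha] at hbig ⊢
  have ha0 : a ≠ 0 := by rw [ha]; exact leadingCoeff_ne_zero.2 hf
  refine ⟨mul_ne_zero (pow_ne_zero _ ha0) hD0, a ^ (f.natDegree + 1) * D, 1, a * x0,
    a ^ f.natDegree * y0, (mul_one _).symm, one_pos, isCoprime_one_right, ?_, ?_⟩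
  · have h1 := norm_eval f hn 1 x0
    rw [scaleRoots_one, scaleRoots_one, ← ha] at h1
    rw [scaleRoots_one, h1, mul_pow, hy]
    obtain ⟨e, he⟩ : ∃ e, f.natDegree = e + 1 := ⟨f.natDegree - 1, by omega⟩
    rw [he]
    simp only [Nat.add_sub_cancel]
    ring
  · calc |a ^ (f.natDegree + 1) * D| ^ M ≤ (|D| ^ 2) ^ M := by
          apply pow_le_pow_left₀ (abs_nonneg _)
          rw [abs_mul, abs_pow, sq]
          exact mul_le_mul_of_nonneg_right hbig (abs_nonneg _)
      _ = |D| ^ (2 * M) := (pow_mul _ _ _).symm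
      _ < |x0| := hx
      _ ≤ |a * x0| := by
          rw [abs_mul]
          have h2 : 1 ≤ |a| := Int.one_le_abs ha0
          have h3 := abs_nonneg x0
          nlinarith

lemma Dens0.mono {A B : Set ℤ} (h : A ⊆ B) (hB : Dens0 B) : Dens0 A := by
  intro ε hε
  obtain ⟨N₀, h0⟩ := hB ε hε
  refine ⟨N₀, fun N hN => le_trans ?_ (h0 N hN)⟩
  have hfin : {D : ℤ | D ∈ B ∧ |D| ≤ N}.Finite :=
    (Set.finite_Icc (-(N : ℤ)) N).subset fun D hD => abs_le.1 hD.2
  have hsub : {D : ℤ | D ∈ A ∧ |D| ≤ N} ⊆ {D : ℤ | D ∈ B ∧ |D| ≤ N} :=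
    fun D hD => ⟨h hD.1, hD.2⟩
  exact_mod_cast Set.ncard_le_ncard hsub hfin

lemma Dens0.scale {A B : Set ℤ} {c : ℤ} (hc : c ≠ 0) (h : ∀ D ∈ A, |c| ≤ |D| → c * D ∈ B)
    (hB : Dens0 B) : Dens0 A := by
  intro ε hε
  have hcpos : (0 : ℝ) < |(c : ℝ)| := abs_pos.2 (by exact_mod_cast hc)
  obtain ⟨N₀, h0⟩ := hB (ε / (2 * |(c : ℝ)|)) (by positivity)
  obtain ⟨N₁, h1⟩ := exists_nat_ge ((2 * |(c : ℝ)| + 1) * 2 / ε)
  refine ⟨max N₀ N₁, fun N hN => ?_⟩
  have hN0 : N₀ ≤ N := (le_max_left _ _).trans hN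
  have hN1 : N₁ ≤ N := (le_max_right _ _).trans hN
  have hc1 : 1 ≤ c.natAbs := Int.natAbs_pos.2 hc
  have hbound := h0 (c.natAbs * N) (hN0.trans (Nat.le_mul_of_pos_left _ (by omega)))
  have hfinB : {D : ℤ | D ∈ B ∧ |D| ≤ ((c.natAbs * N : ℕ) : ℤ)}.Finite :=
    (Set.finite_Icc (-((c.natAbs * N : ℕ) : ℤ)) ((c.natAbs * N : ℕ) : ℤ)).subset
      fun D hD => abs_le.1 hD.2
  have hsub : {D : ℤ | D ∈ A ∧ |D| ≤ N} ⊆ (Finset.Icc (-|c|) |c| : Set ℤ) ∪
      (fun D => c * D) ⁻¹' {D : ℤ | D ∈ B ∧ |D| ≤ ((c.natAbs * N : ℕ) : ℤ)} := by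
    intro D hD
    by_cases hcD : |c| ≤ |D|
    · right
      refine ⟨h D hD.1 hcD, ?_⟩
      push_cast
      rw [abs_mul]
      exact mul_le_mul_of_nonneg_left hD.2 (abs_nonneg _)
    · left
      rw [Finset.coe_Icc, Set.mem_Icc, ← abs_le]
      exact (not_le.1 hcD).le
  have hinj : Function.Injective (fun D : ℤ => c * D) := fun a b hab => mul_left_cancel₀ hc hab
  have hfin2 : ((fun D => c * D) ⁻¹' {D : ℤ | D ∈ B ∧ |D| ≤ ((c.natAbs * N : ℕ) : ℤ)}).Finite :=
    hfinB.preimage hinj.injOn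
  have h2 : (Set.ncard {D : ℤ | D ∈ A ∧ |D| ≤ N} : ℝ) ≤ (2 * |(c : ℝ)| + 1) +
      ε / (2 * |(c : ℝ)|) * (c.natAbs * N : ℕ) := by
    have h3 := Set.ncard_le_ncard hsub ((Finset.finite_toSet _).union hfin2)
    have h4 := Set.ncard_union_le (Finset.Icc (-|c|) |c| : Set ℤ)
      ((fun D => c * D) ⁻¹' {D : ℤ | D ∈ B ∧ |D| ≤ ((c.natAbs * N : ℕ) : ℤ)})
    have h5 : (Finset.Icc (-|c|) |c| : Set ℤ).ncard = (2 * |c| + 1).toNat := by
      rw [Set.ncard_coe_finset, Int.card_Icc]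
      congr 1
      ring
    have h6 : ((fun D => c * D) ⁻¹' {D : ℤ | D ∈ B ∧ |D| ≤ ((c.natAbs * N : ℕ) : ℤ)}).ncard ≤
        {D : ℤ | D ∈ B ∧ |D| ≤ ((c.natAbs * N : ℕ) : ℤ)}.ncard := by
      rw [← Set.ncard_image_of_injective _ hinj]
      exact Set.ncard_le_ncard (Set.image_preimage_subset _ _) hfinB
    rw [h5] at h4
    have h7 : (((2 * |c| + 1).toNat : ℕ) : ℝ) = 2 * |(c : ℝ)| + 1 := by
      have h8 : (((2 * |c| + 1).toNat : ℕ) : ℤ) = 2 * |c| + 1 := Int.toNat_of_nonneg (by positivity)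
      calc (((2 * |c| + 1).toNat : ℕ) : ℝ) = ((((2 * |c| + 1).toNat : ℕ) : ℤ) : ℝ) := by
            rw [Int.cast_natCast]
        _ = ((2 * |c| + 1 : ℤ) : ℝ) := by rw [h8]
        _ = _ := by push_cast; rfl
    calc (Set.ncard {D : ℤ | D ∈ A ∧ |D| ≤ N} : ℝ)
        ≤ (((2 * |c| + 1).toNat : ℕ) : ℝ) +
          ({D : ℤ | D ∈ B ∧ |D| ≤ ((c.natAbs * N : ℕ) : ℤ)}.ncard : ℝ) := by
          have h8 := (h3.trans h4).trans (Nat.add_le_add_left h6 _)
          exact_mod_cast h8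
      _ ≤ _ := by rw [h7]; exact add_le_add_right hbound _
  refine h2.trans ?_
  have h3 : ε / (2 * |(c : ℝ)|) * (c.natAbs * N : ℕ) = ε / 2 * N := by
    push_cast
    rw [Nat.cast_natAbs, Int.cast_abs]
    field_simp
  rw [h3]
  have h4 : (2 * |(c : ℝ)| + 1) * 2 / ε ≤ N := h1.trans (by exact_mod_cast hN1)
  rw [div_le_iff₀ hε] at h4
  linarith

lemma Dens0.tendsto {A : Set ℤ} (h : Dens0 A) :
    Tendsto (fun N : ℕ => (Set.ncard {D : ℤ | D ∈ A ∧ |D| ≤ N} : ℝ) / N) atTop (𝓝 0) := by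
  rw [Metric.tendsto_atTop]
  intro ε hε
  obtain ⟨N₀, h0⟩ := h (ε / 2) (by positivity)
  refine ⟨max N₀ 1, fun N hN => ?_⟩
  have hN0 : N₀ ≤ N := (le_max_left _ _).trans hN
  have hN1 : (0 : ℝ) < N := by exact_mod_cast (le_max_right N₀ 1).trans hN
  rw [Real.dist_eq, sub_zero, abs_of_nonneg (by positivity), div_lt_iff₀ hN1]
  have := h0 N hN0
  nlinarith

/-- both families, from the two cases for monic polynomials -/
theorem families (hAG : StAG) (hBG : StBG2) (n : ℕ) (hn : 3 ≤ n) : ∃ M : ℕ, ∀ f : ℤ[X],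
    f.natDegree = n → (f.map (Int.castRingHom ℚ)).Separable →
    (5 ≤ n ∨ Irreducible (f.map (Int.castRingHom ℚ))) →
    (Odd n → Dens0 (Exc f M)) ∧ Dens0 (Exc2 f M) := by
  obtain ⟨M1, h1⟩ := hAG n
  obtain ⟨M2, h2⟩ := hBG n (by omega)
  have hmonoG : ∀ (f : ℤ[X]) (a b : ℕ), a ≤ b → ExcG f b ⊆ ExcG f a := by
    intro f a b hab D hD
    obtain ⟨hD0, g, m, x, y, h1, h2, h3, h4, h5⟩ := hD
    refine ⟨hD0, g, m, x, y, h1, h2, h3, h4, lt_of_le_of_lt ?_ h5⟩
    exact pow_le_pow_right₀ (Int.one_le_abs hD0) hab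
  refine ⟨2 * (M1 + M2) + 1, fun f hdeg hsep hcase => ?_⟩
  have hf0 : f ≠ 0 := by
    rintro rfl
    rw [natDegree_zero] at hdeg
    omega
  have hG : Dens0 (ExcG (integralNormalization f) (M1 + M2)) := by
    have hmon := monic_integralNormalization hf0
    have hdeg' : (integralNormalization f).natDegree = n := by
      rw [natDegree_integralNormalization, hdeg]
    by_cases hc : ∀ f₁ : ℤ[X], f₁.Monic → Irreducible f₁ → f₁ ∣ integralNormalization f →
        f₁.natDegree + 3 ≤ n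
    · exact (h2 _ hmon hdeg' (norm_sep f hf0 hsep) hc).mono (hmonoG _ _ _ (by omega))
    · push Not at hc
      obtain ⟨f₁, hm1, hi1, hd1, hlt⟩ := hc
      rcases hcase with h5 | hirr
      · exact (h1 _ f₁ hmon hdeg' (norm_sep f hf0 hsep) hm1 hi1 hd1 (by omega)).mono
          (hmonoG _ _ _ (by omega))
      · exact (h1 _ _ hmon hdeg' (norm_sep f hf0 hsep) hmon (norm_irr f hf0 hirr) dvd_rfl
          (by omega)).mono (hmonoG _ _ _ (by omega))
  constructor
  · intro hodd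
    refine hG.mono (Set.Subset.trans ?_ (exc_sub f (by rw [hdeg]; exact hodd) hf0 (M1 + M2)))
    intro D hD
    obtain ⟨hD0, x, y, h3, h4⟩ := hD
    exact ⟨hD0, x, y, h3, lt_of_le_of_lt (pow_le_pow_right₀ (Int.one_le_abs hD0) (by omega)) h4⟩
  · have hc : f.leadingCoeff ^ (f.natDegree + 1) ≠ 0 := pow_ne_zero _ (leadingCoeff_ne_zero.2 hf0)
    refine hG.scale hc ?_
    intro D hD hbig
    apply exc2_mem f (by omega) hf0 (M1 + M2) D _ (by rwa [abs_pow] at hbig)
    obtain ⟨hD0, x, y, h3, h4⟩ := hD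
    exact ⟨hD0, x, y, h3, lt_of_le_of_lt (pow_le_pow_right₀ (Int.one_le_abs hD0) (by omega)) h4⟩

end Pool.Agent.K7.H23.AT
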