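import Pool.Agent.K7.H23.AT.Pt

/-!
Project AT: the gap principle for two points of the same class, for different scalings.
-/

open Polynomial

set_option autoImplicit false

namespace Pool.Agent.K7.H23.AT

open Pool.Agent.Y910.G Pool.Agent.Y910.R Pool.Agent.Y910.F

/-- three values determine the line -/
lemma line_eq {e : ℕ} (he : 3 ≤ e) (θ : Fin e → ℂ) (hθ : Function.Injective θ)
    {xa ma xb mb : ℤ} (c0 c1 : ℂ)
    (h : ∀ i, ((xa : ℂ) - ma * θ i) * (xb - mb * θ i) = (c0 + c1 * θ i) ^ 2)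
    (hma : 0 < ma) (hmb : 0 < mb) (ca : IsCoprime xa ma) (cb : IsCoprime xb mb) :
    xa = xb ∧ ma = mb := by
  obtain ⟨P, hP⟩ : ∃ P : ℂ[X], P = (C (xa : ℂ) - C (ma : ℂ) * X) * (C (xb : ℂ) - C (mb : ℂ) * X) -
    (C c0 + C c1 * X) ^ 2 := ⟨_, rfl⟩
  have hdeg : P.natDegree ≤ 2 := by
    rw [hP]
    compute_degree
  have hP0 : P = 0 := by
    apply Polynomial.eq_zero_of_natDegree_lt_card_of_eval_eq_zero P hθ
    · intro i
      rw [hP]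
      simp only [eval_sub, eval_mul, eval_C, eval_X, eval_pow, eval_add]
      rw [h i, sub_self]
    · rw [Fintype.card_fin]
      omega
  have e0 : P.eval 0 = 0 := by rw [hP0]; simp
  have e1 : P.eval 1 = 0 := by rw [hP0]; simp
  have e2 : P.eval (-1) = 0 := by rw [hP0]; simp
  rw [hP] at e0 e1 e2
  simp only [eval_sub, eval_mul, eval_C, eval_X, eval_pow, eval_add] at e0 e1 e2
  have h1 : ((xa : ℂ) * mb - xb * ma) ^ 2 = 0 := by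
    have f0 : (xa : ℂ) * xb = c0 ^ 2 := by linear_combination e0
    have f1 : (ma : ℂ) * mb = c1 ^ 2 := by linear_combination (e1 + e2) / 2 - e0
    have f2 : (xa : ℂ) * mb + xb * ma = -(2 * c0 * c1) := by linear_combination (e2 - e1) / 2
    have f3 : ((xa : ℂ) * mb - xb * ma) ^ 2 =
        ((xa : ℂ) * mb + xb * ma) ^ 2 - 4 * ((xa : ℂ) * xb) * ((ma : ℂ) * mb) := by ring
    rw [f3, f2, f0, f1]
    ring
  have h2 : (xa : ℂ) * mb - xb * ma = 0 := by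
    exact pow_eq_zero_iff (two_ne_zero) |>.1 h1
  have h3 : xa * mb = xb * ma := by
    have : (((xa * mb - xb * ma : ℤ)) : ℂ) = 0 := by push_cast; exact h2
    have h4 : xa * mb - xb * ma = 0 := by exact_mod_cast this
    linarith
  have h4 : ma ∣ mb := by
    apply ca.symm.dvd_of_dvd_mul_left
    rw [h3]
    exact Dvd.intro_left xb rfl
  have h5 : mb ∣ ma := by
    apply cb.symm.dvd_of_dvd_mul_left
    rw [← h3]
    exact Dvd.intro_left xa rfl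
  have h6 : ma = mb := Int.dvd_antisymm hma.le hmb.le h4 h5
  refine ⟨?_, h6⟩
  rw [h6] at h3
  exact mul_right_cancel₀ hmb.ne' h3

/-- the first order approximation of one square root -/
lemma root_near {t X r θ μ δ x : ℂ} (hX : X ^ 2 = x) (hr : r ^ 2 = δ) (hX0 : X ≠ 0) (hr0 : r ≠ 0)
    (ht : t ^ 2 = δ * (x * (1 - μ * θ))) (hs : ‖t - X * r‖ ≤ ‖t + X * r‖) :
    ∃ ε : ℂ, t = X * r * (1 + ε) ∧ ‖ε‖ ≤ ‖μ * θ‖ := by
  have hXr : X * r ≠ 0 := mul_ne_zero hX0 hr0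
  obtain ⟨ε, hε⟩ : ∃ ε : ℂ, ε = t / (X * r) - 1 := ⟨_, rfl⟩
  have h1 : t = X * r * (1 + ε) := by
    rw [hε]
    field_simp
    ring
  refine ⟨ε, h1, ?_⟩
  have h2 : ε * (2 + ε) = -(μ * θ) := by
    have h3 : (X * r) ^ 2 * (1 + ε) ^ 2 = (X * r) ^ 2 * (1 - μ * θ) := by
      rw [← mul_pow, ← h1, ht, mul_pow, hX, hr]
      ring
    have h4 := mul_left_cancel₀ (pow_ne_zero 2 hXr) h3
    linear_combination h4
  have h3 : ‖ε‖ ≤ ‖2 + ε‖ := by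
    have h4 : t - X * r = X * r * ε := by rw [h1]; ring
    have h5 : t + X * r = X * r * (2 + ε) := by rw [h1]; ring
    rw [h4, h5, norm_mul, norm_mul (X * r)] at hs
    exact le_of_mul_le_mul_left hs (norm_pos_iff.2 hXr)
  have h4 : (1 : ℝ) ≤ ‖2 + ε‖ := by
    have h5 : (2 : ℝ) ≤ ‖2 + ε‖ + ‖ε‖ := by
      have h6 := norm_sub_le (2 + ε) ε
      have h7 : (2 : ℂ) + ε - ε = 2 := by ring
      rw [h7] at h6
      simpa using h6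
    linarith
  have h5 : ‖ε‖ * ‖2 + ε‖ = ‖μ * θ‖ := by
    rw [← norm_mul, h2, norm_neg]
  nlinarith [norm_nonneg ε]

/-- the same with the sign -/
lemma root_near' {t X r θ μ δ x : ℂ} (hX : X ^ 2 = x) (hr : r ^ 2 = δ) (hX0 : X ≠ 0) (hr0 : r ≠ 0)
    (ht : t ^ 2 = δ * (x * (1 - μ * θ))) (hs : ¬ ‖t - X * r‖ ≤ ‖t + X * r‖) :
    ∃ ε : ℂ, t = -(X * r * (1 + ε)) ∧ ‖ε‖ ≤ ‖μ * θ‖ := by
  have h1 : ‖(-t) - X * r‖ ≤ ‖(-t) + X * r‖ := by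
    have h2 : ‖(-t) - X * r‖ = ‖t + X * r‖ := by
      rw [← norm_neg]
      congr 1
      ring
    have h3 : ‖(-t) + X * r‖ = ‖t - X * r‖ := by
      rw [← norm_neg]
      congr 1
      ring
    rw [h2, h3]
    exact (not_le.1 hs).le
  obtain ⟨ε, h2, h3⟩ := root_near (t := -t) hX hr hX0 hr0 (by rw [neg_sq, ht]) h1
  exact ⟨ε, by rw [← h2, neg_neg], h3⟩

/-- the second order approximation of the product of two square roots -/
lemma prod_near {ta tb Xa Xb r θ μa μb δ xa xb : ℂ} (hXa : Xa ^ 2 = xa) (hXb : Xb ^ 2 = xb)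
    (hr : r ^ 2 = δ) (hXa0 : Xa ≠ 0) (hXb0 : Xb ≠ 0) (hr0 : r ≠ 0)
    (hta : ta ^ 2 = δ * (xa * (1 - μa * θ))) (htb : tb ^ 2 = δ * (xb * (1 - μb * θ)))
    (hs : ‖ta - Xa * r‖ ≤ ‖ta + Xa * r‖ ↔ ‖tb - Xb * r‖ ≤ ‖tb + Xb * r‖)
    (h1 : ‖μa * θ‖ ≤ 1 / 10) (h2 : ‖μb * θ‖ ≤ 1 / 10) :
    ‖ta * tb / δ - Xa * Xb * (1 - (μa + μb) / 2 * θ)‖ ≤
      ‖Xa * Xb‖ * ‖θ‖ ^ 2 * ‖μa - μb‖ ^ 2 := by
  have hδ : δ ≠ 0 := by rw [← hr]; exact pow_ne_zero 2 hr0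
  obtain ⟨εa, εb, h3, h4, h5⟩ : ∃ εa εb : ℂ, ta * tb = δ * (Xa * Xb) * ((1 + εa) * (1 + εb)) ∧
      ‖εa‖ ≤ ‖μa * θ‖ ∧ ‖εb‖ ≤ ‖μb * θ‖ := by
    by_cases hc : ‖ta - Xa * r‖ ≤ ‖ta + Xa * r‖
    · obtain ⟨εa, e1, e2⟩ := root_near hXa hr hXa0 hr0 hta hc
      obtain ⟨εb, e3, e4⟩ := root_near hXb hr hXb0 hr0 htb (hs.1 hc)
      refine ⟨εa, εb, ?_, e2, e4⟩
      rw [e1, e3, ← hr]
      ring
    · obtain ⟨εa, e1, e2⟩ := root_near' hXa hr hXa0 hr0 hta hc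
      obtain ⟨εb, e3, e4⟩ := root_near' hXb hr hXb0 hr0 htb (fun h => hc (hs.2 h))
      refine ⟨εa, εb, ?_, e2, e4⟩
      rw [e1, e3, ← hr]
      ring
  obtain ⟨S, hS⟩ : ∃ S, S = Xa * Xb := ⟨_, rfl⟩
  have hS0 : S ≠ 0 := by rw [hS]; exact mul_ne_zero hXa0 hXb0
  obtain ⟨E, hE⟩ : ∃ E, E = ta * tb / δ := ⟨_, rfl⟩
  obtain ⟨L, hL⟩ : ∃ L, L = S * (1 - (μa + μb) / 2 * θ) := ⟨_, rfl⟩
  rw [← hS, ← hE, ← hL]
  have hE1 : E = S * ((1 + εa) * (1 + εb)) := by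
    rw [hE, h3, hS]
    field_simp
  have hE2 : E ^ 2 = S ^ 2 * ((1 - μa * θ) * (1 - μb * θ)) := by
    rw [hE, div_pow, mul_pow, hta, htb, hS, mul_pow, hXa, hXb]
    field_simp
  have hdiff : (E - L) * (E + L) = -(S ^ 2 * θ ^ 2 * (μa - μb) ^ 2 / 4) := by
    have : (E - L) * (E + L) = E ^ 2 - L ^ 2 := by ring
    rw [this, hE2, hL]
    ring
  have hsum : ‖S‖ ≤ ‖E + L‖ := by
    have h6 : E + L = S * (2 + (εa + εb + εa * εb - (μa * θ + μb * θ) / 2)) := by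
      rw [hE1, hL]
      ring
    rw [h6, norm_mul]
    have h7 : ‖εa + εb + εa * εb - (μa * θ + μb * θ) / 2‖ ≤ 1 := by
      have a1 : ‖εa‖ ≤ 1 / 10 := h4.trans h1
      have a2 : ‖εb‖ ≤ 1 / 10 := h5.trans h2
      have a3 : ‖εa * εb‖ ≤ 1 / 10 * (1 / 10) := by
        rw [norm_mul]
        exact mul_le_mul a1 a2 (norm_nonneg _) (by norm_num)
      have a4 : ‖(μa * θ + μb * θ) / 2‖ ≤ 1 / 10 := by
        rw [norm_div]
        have := norm_add_le (μa * θ) (μb * θ)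
        have h8 : ‖(2 : ℂ)‖ = 2 := by simp
        rw [h8]
        linarith
      calc _ ≤ ‖εa + εb + εa * εb‖ + ‖(μa * θ + μb * θ) / 2‖ := norm_sub_le _ _
        _ ≤ (‖εa + εb‖ + ‖εa * εb‖) + ‖(μa * θ + μb * θ) / 2‖ := by
            gcongr
            exact norm_add_le _ _
        _ ≤ ((‖εa‖ + ‖εb‖) + ‖εa * εb‖) + ‖(μa * θ + μb * θ) / 2‖ := by
            gcongr
            exact norm_add_le _ _
        _ ≤ 1 := by linarith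
    have h8 : (1 : ℝ) ≤ ‖2 + (εa + εb + εa * εb - (μa * θ + μb * θ) / 2)‖ := by
      have h9 := norm_sub_le (2 + (εa + εb + εa * εb - (μa * θ + μb * θ) / 2))
        (εa + εb + εa * εb - (μa * θ + μb * θ) / 2)
      rw [add_sub_cancel_right] at h9
      have h10 : ‖(2 : ℂ)‖ = 2 := by simp
      rw [h10] at h9
      linarith
    calc ‖S‖ = ‖S‖ * 1 := (mul_one _).symm
      _ ≤ _ := mul_le_mul_of_nonneg_left h8 (norm_nonneg _)
  have hSp : 0 < ‖S‖ := norm_pos_iff.2 hS0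
  have h6 : ‖E - L‖ * ‖S‖ ≤ ‖S‖ * ‖θ‖ ^ 2 * ‖μa - μb‖ ^ 2 * ‖S‖ := by
    calc ‖E - L‖ * ‖S‖ ≤ ‖E - L‖ * ‖E + L‖ := mul_le_mul_of_nonneg_left hsum (norm_nonneg _)
      _ = ‖S‖ ^ 2 * ‖θ‖ ^ 2 * ‖μa - μb‖ ^ 2 / 4 := by
          rw [← norm_mul, hdiff, norm_neg, norm_div, norm_mul, norm_mul, norm_pow, norm_pow,
            norm_pow]
          norm_num
      _ ≤ ‖S‖ * ‖θ‖ ^ 2 * ‖μa - μb‖ ^ 2 * ‖S‖ := by
          have : 0 ≤ ‖S‖ ^ 2 * ‖θ‖ ^ 2 * ‖μa - μb‖ ^ 2 := by positivity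
          nlinarith
  exact le_of_mul_le_mul_right h6 hSp

end Pool.Agent.K7.H23.AT
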