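import Pool.Agent.K7.H23.AT.Gap

/-!
Project AT: integrality in the gap principle.
-/

open Polynomial

set_option autoImplicit false

namespace Pool.Agent.K7.H23.AT

open Pool.Agent.Y910.G Pool.Agent.Y910.R Pool.Agent.Y910.F

lemma fac_le (e H : ℕ) (hH : 1 ≤ H) : Nat.factorial e ≤ (2 * H) ^ (e ^ 2) := by
  have h1 : Nat.factorial e ≤ e ^ e := Nat.factorial_le_pow e
  have h2 : e ≤ (2 * H) ^ e := (Nat.lt_two_pow_self).le.trans (Nat.pow_le_pow_left (by omega) _)
  calc Nat.factorial e ≤ e ^ e := h1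
    _ ≤ ((2 * H) ^ e) ^ e := Nat.pow_le_pow_left h2 _
    _ = (2 * H) ^ (e ^ 2) := by rw [← pow_mul, sq]

/-- the power sums of the roots -/
lemma psum (e : ℕ) {H : ℕ} (hH : 1 ≤ H) (g : ℤ[X]) (hmon : g.Monic)
    (hsep : (g.map (Int.castRingHom ℚ)).Separable) (hcoef : ∀ i, |g.coeff i| ≤ H)
    (θ : Fin e → ℂ) (hθ0 : ∀ i, aeval (θ i) g = 0)
    (hθs : ∀ F : ℂ → ℂ, ∑ i, F (θ i) =
      ∑ r ∈ ((g.map (Int.castRingHom ℚ)).map (algebraMap ℚ ℂ)).roots.toFinset, F r) (k : ℕ) :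
    ∃ z : ℤ, (z : ℂ) = ∑ i, θ i ^ k ∧ |z| ≤ (2 * H : ℤ) ^ (e + k) := by
  obtain ⟨q, hq⟩ := trace_rat _ hsep (X ^ k)
  have h1 : (q : ℂ) = ∑ i, θ i ^ k := by
    rw [← hq, ← hθs fun r => ((X ^ k : ℚ[X]).map (algebraMap ℚ ℂ)).eval r]
    refine Finset.sum_congr rfl fun i _ => ?_
    simp
  have hθint : ∀ i, IsIntegral ℤ (θ i) := fun i => ⟨g, hmon, hθ0 i⟩
  have h2 : IsIntegral ℤ (q : ℂ) := by
    rw [h1]
    exact IsIntegral.sum _ fun i _ => (hθint i).pow k
  have h3 : IsIntegral ℤ q := by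
    have h4 : IsIntegral ℤ (algebraMap ℚ ℂ q) := by simpa using h2
    exact (isIntegral_algebraMap_iff (algebraMap ℚ ℂ).injective).1 h4
  obtain ⟨z, hz⟩ := IsIntegrallyClosed.isIntegral_iff.1 h3
  have hz' : (z : ℂ) = ∑ i, θ i ^ k := by
    rw [← h1, ← hz]
    simp
  refine ⟨z, hz', ?_⟩
  have hb : ∀ i, ‖θ i‖ ≤ ((2 * H : ℕ) : ℝ) := fun i =>
    root_bound g H hmon.ne_zero hcoef hH _ (hθ0 i)
  have h5 : ‖(z : ℂ)‖ ≤ ((2 * H : ℕ) : ℝ) ^ (e + k) := by
    rw [hz']
    calc ‖∑ i, θ i ^ k‖ ≤ ∑ i, ‖θ i ^ k‖ := norm_sum_le _ _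
      _ ≤ ∑ _i : Fin e, ((2 * H : ℕ) : ℝ) ^ k := by
          refine Finset.sum_le_sum fun i _ => ?_
          rw [norm_pow]
          exact pow_le_pow_left₀ (norm_nonneg _) (hb i) k
      _ = e * ((2 * H : ℕ) : ℝ) ^ k := by simp
      _ ≤ ((2 * H : ℕ) : ℝ) ^ e * ((2 * H : ℕ) : ℝ) ^ k := by
          apply mul_le_mul_of_nonneg_right _ (by positivity)
          have h2 : e ≤ (2 * H) ^ e :=
            (Nat.lt_two_pow_self).le.trans (Nat.pow_le_pow_left (by omega) _)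
          exact_mod_cast h2
      _ = _ := (pow_add _ _ _).symm
  rw [Complex.norm_intCast] at h5
  exact_mod_cast h5

lemma lin_of_small {e : ℕ} (he : 3 ≤ e) {H : ℕ} (hH : 1 ≤ H) (g : ℤ[X]) (hmon : g.Monic)
    (hsep : (g.map (Int.castRingHom ℚ)).Separable) (hcoef : ∀ i, |g.coeff i| ≤ H)
    (θ : Fin e → ℂ) (hθi : Function.Injective θ) (hθ0 : ∀ i, aeval (θ i) g = 0)
    (hθs : ∀ F : ℂ → ℂ, ∑ i, F (θ i) =
      ∑ r ∈ ((g.map (Int.castRingHom ℚ)).map (algebraMap ℚ ℂ)).roots.toFinset, F r)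
    (v : Fin e → ℂ) (hv : ∀ i, IsIntegral ℤ (v i)) (s : ℂ) (β : ℤ) (hβ : β ≠ 0) (hs : s ^ 2 = β)
    (E : ℚ[X]) (hE : ∀ i, aeval (θ i) E = s * v i) (a0 a1 : ℂ) (ε : ℝ)
    (hε : ∀ i, ‖v i - (a0 + a1 * θ i)‖ ≤ ε)
    (hsmall : ((2 * H : ℕ) : ℝ) ^ (4 * e ^ 2 + 3 * e) * ε < 1) :
    ∃ c0 c1 : ℂ, ∀ i, v i = c0 + c1 * θ i := by
  classical
  have hβC : (β : ℂ) ≠ 0 := by exact_mod_cast hβ
  have hs0 : s ≠ 0 := by
    rintro rfl
    rw [zero_pow two_ne_zero] at hs
    exact hβC hs.symm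
  have hH2 : 2 ≤ 2 * H := by omega
  have hθint : ∀ i, IsIntegral ℤ (θ i) := fun i => ⟨g, hmon, hθ0 i⟩
  have hb : ∀ i, ‖θ i‖ ≤ ((2 * H : ℕ) : ℝ) := fun i =>
    root_bound g H hmon.ne_zero hcoef hH _ (hθ0 i)
  choose p hp hpb using psum e hH g hmon hsep hcoef θ hθ0 hθs
  obtain ⟨Gz, hGz⟩ : ∃ Gz : Matrix (Fin e) (Fin e) ℤ, Gz = Matrix.of fun a b => p (a.1 + b.1) :=
    ⟨_, rfl⟩
  obtain ⟨V, hV⟩ : ∃ V : Matrix (Fin e) (Fin e) ℂ, V = Matrix.vandermonde θ := ⟨_, rfl⟩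
  have hdetV : V.det ≠ 0 := by
    rw [hV]
    exact Matrix.det_vandermonde_ne_zero_iff.2 hθi
  have hGV : (Int.castRingHom ℂ).mapMatrix Gz = V.transpose * V := by
    ext a b
    rw [RingHom.mapMatrix_apply, Matrix.map_apply, hGz, Matrix.of_apply, Matrix.mul_apply]
    simp only [eq_intCast, hp, hV, Matrix.transpose_apply, Matrix.vandermonde_apply, pow_add]
  obtain ⟨Ad, hAd⟩ : ∃ Ad : Matrix (Fin e) (Fin e) ℤ, Ad = Gz.adjugate := ⟨_, rfl⟩
  have hAdC : (Int.castRingHom ℂ).mapMatrix Ad * (V.transpose * V) = (V.det ^ 2) • 1 := by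
    rw [← hGV, hAd, RingHom.map_adjugate, Matrix.adjugate_mul, hGV, Matrix.det_mul,
      Matrix.det_transpose, sq]
  -- bound for the adjugate
  have hAdb : ∀ j b, |Ad j b| ≤ (2 * H : ℤ) ^ (4 * e ^ 2) := by
    intro j b
    rw [hAd, Matrix.adjugate_apply]
    have h1 : ∀ i k, AbsoluteValue.abs ((Gz.updateRow b (Pi.single j 1)) i k) ≤
        (2 * H : ℤ) ^ (3 * e) := by
      intro i k
      have h0 : (1 : ℤ) ≤ (2 * H : ℤ) ^ (3 * e) := by
        exact_mod_cast Nat.one_le_pow (3 * e) (2 * H) (by omega)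
      rw [AbsoluteValue.abs_apply, Matrix.updateRow_apply]
      split_ifs with h
      · rw [Pi.single_apply]
        split_ifs with h2
        · simpa using h0
        · rw [abs_zero]
          linarith
      · rw [hGz, Matrix.of_apply]
        refine (hpb _).trans ?_
        have h2 : (2 * H) ^ (e + (i.1 + k.1)) ≤ (2 * H) ^ (3 * e) := by
          apply Nat.pow_le_pow_right (by omega)
          have := i.2
          have := k.2
          omega
        exact_mod_cast h2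
    have h2 := Matrix.det_le (abv := (AbsoluteValue.abs : AbsoluteValue ℤ ℤ)) h1
    rw [AbsoluteValue.abs_apply, Fintype.card_fin] at h2
    refine h2.trans ?_
    have h3 := fac_le e H hH
    have h4 : Nat.factorial e * ((2 * H) ^ (3 * e)) ^ e ≤ (2 * H) ^ (4 * e ^ 2) := by
      calc Nat.factorial e * ((2 * H) ^ (3 * e)) ^ e
          ≤ (2 * H) ^ (e ^ 2) * ((2 * H) ^ (3 * e)) ^ e := Nat.mul_le_mul_right _ h3
        _ = (2 * H) ^ (4 * e ^ 2) := by
            rw [← pow_mul, ← pow_add]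
            congr 1
            ring
    rw [nsmul_eq_mul]
    exact_mod_cast h4
  -- the numbers Z
  obtain ⟨Z, hZ⟩ : ∃ Z : (Fin e → ℂ) → Fin e → ℂ, ∀ w j, Z w j =
      ∑ b, (Ad j b : ℂ) * ∑ i, w i * θ i ^ (b.1) := ⟨fun w j => _, fun _ _ => rfl⟩
  have hZV : ∀ c : Fin e → ℂ, Z (V.mulVec c) = (V.det ^ 2) • c := by
    intro c
    have h1 : Z (V.mulVec c) =
        ((Int.castRingHom ℂ).mapMatrix Ad).mulVec (V.transpose.mulVec (V.mulVec c)) := by
      ext j
      rw [hZ, Matrix.mulVec, dotProduct]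
      refine Finset.sum_congr rfl fun b _ => ?_
      rw [RingHom.mapMatrix_apply, Matrix.map_apply, Matrix.mulVec, dotProduct]
      simp only [eq_intCast]
      congr 1
      refine Finset.sum_congr rfl fun i _ => ?_
      rw [Matrix.transpose_apply, hV, Matrix.vandermonde_apply, mul_comm]
    rw [h1, Matrix.mulVec_mulVec, Matrix.mulVec_mulVec, Matrix.mul_assoc, hAdC,
      Matrix.smul_mulVec, Matrix.one_mulVec]
  have hlin : ∀ w w' j, Z (w - w') j = Z w j - Z w' j := by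
    intro w w' j
    rw [hZ, hZ, hZ, ← Finset.sum_sub_distrib]
    refine Finset.sum_congr rfl fun b _ => ?_
    rw [← mul_sub, ← Finset.sum_sub_distrib]
    congr 1
    refine Finset.sum_congr rfl fun i _ => ?_
    rw [Pi.sub_apply]
    ring
  -- the coordinates of v
  have hdU : IsUnit V.det := isUnit_iff_ne_zero.2 hdetV
  obtain ⟨c, hc⟩ : ∃ c : Fin e → ℂ, V.mulVec c = v := by
    refine ⟨V⁻¹.mulVec v, ?_⟩
    rw [Matrix.mulVec_mulVec, Matrix.mul_nonsing_inv _ hdU, Matrix.one_mulVec]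
  obtain ⟨i0, hi0⟩ : ∃ i0 : Fin e, i0.1 = 0 := ⟨⟨0, by omega⟩, rfl⟩
  obtain ⟨i1, hi1⟩ : ∃ i1 : Fin e, i1.1 = 1 := ⟨⟨1, by omega⟩, rfl⟩
  have hline : ∀ b0 b1 : ℂ, V.mulVec (b0 • Pi.single i0 1 + b1 • Pi.single i1 1) =
      fun i => b0 + b1 * θ i := by
    intro b0 b1
    rw [Matrix.mulVec_add, Matrix.mulVec_smul, Matrix.mulVec_smul, Matrix.mulVec_single_one,
      Matrix.mulVec_single_one]
    ext i
    rw [Pi.add_apply, Pi.smul_apply, Pi.smul_apply, Matrix.col_apply, Matrix.col_apply, hV,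
      Matrix.vandermonde_apply, Matrix.vandermonde_apply, hi0, hi1]
    simp
  have hzero : ∀ j, j ≠ i0 → j ≠ i1 → c j = 0 := by
    intro j hj0 hj1
    have h1 : Z v j = Z (v - fun i => a0 + a1 * θ i) j := by
      rw [hlin, ← hline a0 a1, hZV, Pi.smul_apply, Pi.add_apply, Pi.smul_apply, Pi.smul_apply,
        Pi.single_apply, Pi.single_apply, if_neg hj0, if_neg hj1]
      simp
    have h2 : ‖Z v j‖ < 1 := by
      rw [h1, hZ]
      have hT1 : (1 : ℝ) ≤ ((2 * H : ℕ) : ℝ) := by exact_mod_cast (by omega : 1 ≤ 2 * H)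
      have hε0 : 0 ≤ ε := (norm_nonneg _).trans (hε j)
      calc _ ≤ ∑ b : Fin e, ‖(Ad j b : ℂ) * ∑ i, (v - fun i => a0 + a1 * θ i) i * θ i ^ (b.1)‖ :=
            norm_sum_le _ _
        _ ≤ ∑ _b : Fin e, ((2 * H : ℕ) : ℝ) ^ (4 * e ^ 2) *
            (((2 * H : ℕ) : ℝ) ^ e * (ε * ((2 * H : ℕ) : ℝ) ^ e)) := by
            refine Finset.sum_le_sum fun b _ => ?_
            rw [norm_mul]
            apply mul_le_mul _ _ (norm_nonneg _) (by positivity)
            · rw [Complex.norm_intCast]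
              have := hAdb j b
              exact_mod_cast this
            · calc _ ≤ ∑ i, ‖(v - fun i => a0 + a1 * θ i) i * θ i ^ (b.1)‖ := norm_sum_le _ _
                _ ≤ ∑ _i : Fin e, ε * ((2 * H : ℕ) : ℝ) ^ e := by
                    refine Finset.sum_le_sum fun i _ => ?_
                    rw [norm_mul, norm_pow]
                    apply mul_le_mul (hε i) _ (by positivity) hε0
                    exact (pow_le_pow_left₀ (norm_nonneg _) (hb i) _).trans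
                      (pow_le_pow_right₀ hT1 b.2.le)
                _ = e * (ε * ((2 * H : ℕ) : ℝ) ^ e) := by simp
                _ ≤ _ := by
                    apply mul_le_mul_of_nonneg_right _ (by positivity)
                    have h2 : e ≤ (2 * H) ^ e :=
                      (Nat.lt_two_pow_self).le.trans (Nat.pow_le_pow_left (by omega) _)
                    exact_mod_cast h2
        _ = e * (((2 * H : ℕ) : ℝ) ^ (4 * e ^ 2) *
            (((2 * H : ℕ) : ℝ) ^ e * (ε * ((2 * H : ℕ) : ℝ) ^ e))) := by simp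
        _ ≤ ((2 * H : ℕ) : ℝ) ^ e * (((2 * H : ℕ) : ℝ) ^ (4 * e ^ 2) *
            (((2 * H : ℕ) : ℝ) ^ e * (ε * ((2 * H : ℕ) : ℝ) ^ e))) := by
            apply mul_le_mul_of_nonneg_right _ (by positivity)
            have h2 : e ≤ (2 * H) ^ e :=
              (Nat.lt_two_pow_self).le.trans (Nat.pow_le_pow_left (by omega) _)
            exact_mod_cast h2
        _ = ((2 * H : ℕ) : ℝ) ^ (4 * e ^ 2 + 3 * e) * ε := by
            rw [show 4 * e ^ 2 + 3 * e = e + 4 * e ^ 2 + e + e by ring, pow_add, pow_add, pow_add]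
            ring
        _ < 1 := hsmall
    -- Z v j squared is an integer
    have h3 : IsIntegral ℤ (Z v j) := by
      rw [hZ]
      apply IsIntegral.sum
      intro b _
      apply IsIntegral.mul (isIntegral_algebraMap (R := ℤ) (x := Ad j b))
      exact IsIntegral.sum _ fun i _ => (hv i).mul ((hθint i).pow _)
    have h4 : ∃ q : ℚ, (q : ℂ) = s * Z v j := by
      choose q hq using fun b : Fin e => trace_rat _ hsep (E * X ^ b.1)
      refine ⟨∑ b, (Ad j b : ℚ) * q b, ?_⟩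
      rw [hZ, Finset.mul_sum]
      push_cast
      refine Finset.sum_congr rfl fun b _ => ?_
      rw [← hq b, ← hθs fun r => ((E * X ^ b.1 : ℚ[X]).map (algebraMap ℚ ℂ)).eval r, Finset.mul_sum,
        Finset.mul_sum, Finset.mul_sum]
      refine Finset.sum_congr rfl fun i _ => ?_
      rw [eval_map_algebraMap, map_mul, hE]
      simp only [map_pow, aeval_X]
      ring
    obtain ⟨q, hq⟩ := h4
    have h5 : Z v j ^ 2 = ((q ^ 2 / β : ℚ) : ℂ) := by
      push_cast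
      rw [hq, mul_pow, hs]
      field_simp
    have h6 : IsIntegral ℤ (q ^ 2 / β : ℚ) := by
      have h7 : IsIntegral ℤ (algebraMap ℚ ℂ (q ^ 2 / β : ℚ)) := by
        have h8 : algebraMap ℚ ℂ (q ^ 2 / β : ℚ) = ((q ^ 2 / β : ℚ) : ℂ) := rfl
        rw [h8, ← h5]
        exact h3.pow 2
      exact (isIntegral_algebraMap_iff (algebraMap ℚ ℂ).injective).1 h7
    obtain ⟨z, hz⟩ := IsIntegrallyClosed.isIntegral_iff.1 h6
    have h7 : Z v j ^ 2 = (z : ℂ) := by
      rw [h5, ← hz]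
      simp
    have h8 : |z| < 1 := by
      have h9 : ‖(z : ℂ)‖ < 1 := by
        rw [← h7, norm_pow]
        exact pow_lt_one₀ (norm_nonneg _) h2 two_ne_zero
      rw [Complex.norm_intCast] at h9
      exact_mod_cast h9
    have h9 : z = 0 := Int.abs_lt_one_iff.1 h8
    have h10 : Z v j = 0 := by
      rw [h9, Int.cast_zero] at h7
      exact pow_eq_zero_iff two_ne_zero |>.1 h7
    rw [← hc, hZV, Pi.smul_apply, smul_eq_mul] at h10
    exact (mul_eq_zero.1 h10).resolve_left (pow_ne_zero 2 hdetV)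
  refine ⟨c i0, c i1, fun i => ?_⟩
  have h1 : c = c i0 • Pi.single i0 1 + c i1 • Pi.single i1 1 := by
    have h01 : i0 ≠ i1 := by
      intro h
      rw [h] at hi0
      omega
    ext j
    rw [Pi.add_apply, Pi.smul_apply, Pi.smul_apply, Pi.single_apply, Pi.single_apply]
    by_cases hj0 : j = i0
    · rw [hj0, if_pos rfl, if_neg h01]
      simp
    · by_cases hj1 : j = i1
      · rw [hj1, if_pos rfl, if_neg h01.symm]
        simp
      · rw [if_neg hj0, if_neg hj1, hzero j hj0 hj1]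
        simp
  calc v i = V.mulVec c i := by rw [hc]
    _ = V.mulVec (c i0 • Pi.single i0 1 + c i1 • Pi.single i1 1) i := by rw [← h1]
    _ = _ := by rw [hline]

end Pool.Agent.K7.H23.AT
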