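import Pool.Agent.K7.H23.AT.Gap2

/-!
Project AT: the gap principle.
-/

open Polynomial

set_option autoImplicit false

namespace Pool.Agent.K7.H23.AT

open Pool.Agent.Y910.G Pool.Agent.Y910.R Pool.Agent.Y910.F

/-- the gap principle -/
lemma gap {e : ℕ} (he : 3 ≤ e) {H : ℕ} (hH : 1 ≤ H) (g : ℤ[X]) (hmon : g.Monic)
    (hsep : (g.map (Int.castRingHom ℚ)).Separable) (hcoef : ∀ i, |g.coeff i| ≤ H)
    (θ : Fin e → ℂ) (hθi : Function.Injective θ) (hθ0 : ∀ i, aeval (θ i) g = 0)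
    (hθs : ∀ F : ℂ → ℂ, ∑ i, F (θ i) =
      ∑ r ∈ ((g.map (Int.castRingHom ℚ)).map (algebraMap ℚ ℂ)).roots.toFinset, F r)
    (D : ℚ[X]) (hD : ∀ z : ℂ, aeval z g = 0 → aeval z D ≠ 0) (r : Fin e → ℂ)
    (hr : ∀ i, r i ^ 2 = aeval (θ i) D) {xa ma ba xb mb bb : ℤ} {Ba Bb : ℚ[X]}
    (hba : ba ≠ 0) (hbb : bb ≠ 0)
    (hBa : g.map (Int.castRingHom ℚ) ∣ Ba ^ 2 - C (ba : ℚ) * D * (C (xa : ℚ) - C (ma : ℚ) * X))
    (hBb : g.map (Int.castRingHom ℚ) ∣ Bb ^ 2 - C (bb : ℚ) * D * (C (xb : ℚ) - C (mb : ℚ) * X))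
    (hma : 0 < ma) (hmb : 0 < mb) (hmaH : ma ≤ H) (hmbH : mb ≤ H) (ca : IsCoprime xa ma)
    (cb : IsCoprime xb mb) {Xa Xb sa sb : ℂ} (hXa : Xa ^ 2 = xa) (hXb : Xb ^ 2 = xb)
    (hsa : sa ^ 2 = ba) (hsb : sb ^ 2 = bb)
    (hsign : ∀ i, ‖aeval (θ i) Ba / sa - Xa * r i‖ ≤ ‖aeval (θ i) Ba / sa + Xa * r i‖ ↔
      ‖aeval (θ i) Bb / sb - Xb * r i‖ ≤ ‖aeval (θ i) Bb / sb + Xb * r i‖)
    (hlarge : (2 * H : ℤ) ^ (8 * e ^ 2 + 6 * e + 12) ≤ |xa|) (hab : |xa| ≤ |xb|)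
    (hlt : |xb| ≤ |xa| ^ 2) : xa = xb ∧ ma = mb := by
  obtain ⟨T, hT⟩ : ∃ T : ℝ, T = ((2 * H : ℕ) : ℝ) := ⟨_, rfl⟩
  have hT2 : (2 : ℝ) ≤ T := by
    rw [hT]
    exact_mod_cast (by omega : 2 ≤ 2 * H)
  have hT1 : (1 : ℝ) ≤ T := by linarith
  have hHT : (H : ℝ) = T / 2 := by rw [hT]; push_cast; ring
  have hla : T ^ (8 * e ^ 2 + 6 * e + 12) ≤ |(xa : ℝ)| := by
    rw [hT]
    exact_mod_cast hlarge
  have hxa1 : 1024 * T ^ 2 ≤ |(xa : ℝ)| := by
    refine le_trans ?_ hla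
    calc 1024 * T ^ 2 = 2 ^ 10 * T ^ 2 := by norm_num
      _ ≤ T ^ 10 * T ^ 2 := by
          apply mul_le_mul_of_nonneg_right _ (by positivity)
          exact pow_le_pow_left₀ (by norm_num) hT2 _
      _ = T ^ 12 := by ring
      _ ≤ _ := pow_le_pow_right₀ hT1 (by omega)
  have hxap : 0 < |(xa : ℝ)| := by
    have : 0 < T ^ 2 := by positivity
    linarith
  have habR : |(xa : ℝ)| ≤ |(xb : ℝ)| := by exact_mod_cast hab
  have hltR : |(xb : ℝ)| ≤ |(xa : ℝ)| ^ 2 := by exact_mod_cast hlt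
  have hxbp : 0 < |(xb : ℝ)| := hxap.trans_le habR
  have hxa0 : (xa : ℂ) ≠ 0 := by
    intro h
    have : (xa : ℤ) = 0 := by exact_mod_cast h
    rw [this] at hxap
    simp at hxap
  have hxb0 : (xb : ℂ) ≠ 0 := by
    intro h
    have : (xb : ℤ) = 0 := by exact_mod_cast h
    rw [this] at hxbp
    simp at hxbp
  have hba0 : (ba : ℂ) ≠ 0 := by exact_mod_cast hba
  have hbb0 : (bb : ℂ) ≠ 0 := by exact_mod_cast hbb
  have hsa0 : sa ≠ 0 := by
    rintro rfl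
    rw [zero_pow two_ne_zero] at hsa
    exact hba0 hsa.symm
  have hsb0 : sb ≠ 0 := by
    rintro rfl
    rw [zero_pow two_ne_zero] at hsb
    exact hbb0 hsb.symm
  have hXa0 : Xa ≠ 0 := by
    rintro rfl
    rw [zero_pow two_ne_zero] at hXa
    exact hxa0 hXa.symm
  have hXb0 : Xb ≠ 0 := by
    rintro rfl
    rw [zero_pow two_ne_zero] at hXb
    exact hxb0 hXb.symm
  have hδ0 : ∀ i, aeval (θ i) D ≠ 0 := fun i => hD _ (hθ0 i)
  have hr0 : ∀ i, r i ≠ 0 := by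
    intro i h
    have h1 := hr i
    rw [h, zero_pow two_ne_zero] at h1
    exact hδ0 i h1.symm
  have hb : ∀ i, ‖θ i‖ ≤ T := fun i => by
    rw [hT]
    exact root_bound g H hmon.ne_zero hcoef hH _ (hθ0 i)
  have hθint : ∀ i, IsIntegral ℤ (θ i) := fun i => ⟨g, hmon, hθ0 i⟩
  have hz : ∀ n : ℤ, IsIntegral ℤ (n : ℂ) := fun n => isIntegral_algebraMap (R := ℤ) (x := n)
  -- the slopes
  obtain ⟨μa, hμa⟩ : ∃ μ : ℂ, μ = ma / xa := ⟨_, rfl⟩
  obtain ⟨μb, hμb⟩ : ∃ μ : ℂ, μ = mb / xb := ⟨_, rfl⟩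
  have hμaN : ‖μa‖ ≤ T / 2 / |(xa : ℝ)| := by
    rw [hμa, norm_div, Complex.norm_intCast, Complex.norm_intCast]
    apply div_le_div_of_nonneg_right _ hxap.le
    rw [← hHT, abs_of_pos (by exact_mod_cast hma)]
    exact_mod_cast hmaH
  have hμbN : ‖μb‖ ≤ T / 2 / |(xa : ℝ)| := by
    rw [hμb, norm_div, Complex.norm_intCast, Complex.norm_intCast]
    calc |(mb : ℝ)| / |(xb : ℝ)| ≤ (T / 2) / |(xb : ℝ)| := by
          apply div_le_div_of_nonneg_right _ hxbp.le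
          rw [← hHT, abs_of_pos (by exact_mod_cast hmb)]
          exact_mod_cast hmbH
      _ ≤ _ := div_le_div_of_nonneg_left (by positivity) hxap habR
  have hsm : T / 2 / |(xa : ℝ)| * T ≤ 1 / 10 := by
    rw [div_mul_eq_mul_div, div_le_iff₀ hxap]
    nlinarith
  have h1a : ∀ i, ‖μa * θ i‖ ≤ 1 / 10 := fun i => by
    rw [norm_mul]
    exact (mul_le_mul hμaN (hb i) (norm_nonneg _) (by positivity)).trans hsm
  have h1b : ∀ i, ‖μb * θ i‖ ≤ 1 / 10 := fun i => by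
    rw [norm_mul]
    exact (mul_le_mul hμbN (hb i) (norm_nonneg _) (by positivity)).trans hsm
  -- the square roots
  have hta : ∀ i, (aeval (θ i) Ba / sa) ^ 2 = aeval (θ i) D * (xa * (1 - μa * θ i)) := by
    intro i
    rw [div_pow, root_sq g D ba xa ma Ba hBa _ (hθ0 i), hsa, hμa]
    field_simp
  have htb : ∀ i, (aeval (θ i) Bb / sb) ^ 2 = aeval (θ i) D * (xb * (1 - μb * θ i)) := by
    intro i
    rw [div_pow, root_sq g D bb xb mb Bb hBb _ (hθ0 i), hsb, hμb]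
    field_simp
  obtain ⟨v, hv⟩ : ∃ v : Fin e → ℂ, ∀ i, v i =
    (aeval (θ i) Ba / sa) * (aeval (θ i) Bb / sb) / aeval (θ i) D := ⟨fun i => _, fun _ => rfl⟩
  have hv2 : ∀ i, v i ^ 2 = ((xa : ℂ) - ma * θ i) * (xb - mb * θ i) := by
    intro i
    have hd := hδ0 i
    rw [hv, div_pow, mul_pow, hta, htb, hμa, hμb]
    field_simp
  have hvint : ∀ i, IsIntegral ℤ (v i) := by
    intro i
    apply IsIntegral.of_pow (n := 2) (by norm_num)
    rw [hv2]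
    exact ((hz _).sub ((hz _).mul (hθint i))).mul ((hz _).sub ((hz _).mul (hθint i)))
  -- the rational polynomial
  have hcop : IsCoprime D (g.map (Int.castRingHom ℚ)) := by
    rw [Polynomial.isCoprime_iff_aeval_ne_zero_of_isAlgClosed ℚ ℂ]
    intro a
    by_cases h : aeval a g = 0
    · exact Or.inl (hD a h)
    · right
      intro h2
      apply h
      rw [aeval_def, eval₂_map] at h2
      rw [aeval_def, ← h2]
      congr 1
  obtain ⟨U, W, hUW⟩ := hcop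
  have hU : ∀ i, aeval (θ i) U = 1 / aeval (θ i) D := by
    intro i
    have h2 := congrArg (aeval (θ i)) hUW
    rw [map_add, map_mul, map_mul, map_one] at h2
    have h3 : aeval (θ i) (g.map (Int.castRingHom ℚ)) = 0 := by
      rw [aeval_def, eval₂_map, ← hθ0 i, aeval_def]
      congr 1
    rw [h3, mul_zero, add_zero] at h2
    have hd := hδ0 i
    field_simp
    exact h2
  have hS0 : Xa * Xb ≠ 0 := mul_ne_zero hXa0 hXb0
  obtain ⟨y, hy⟩ : ∃ y : ℝ, y = √|(xa : ℝ)| := ⟨_, rfl⟩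
  have hy0 : 0 < y := by rw [hy]; exact Real.sqrt_pos.2 hxap
  have hy2 : y ^ 2 = |(xa : ℝ)| := by rw [hy]; exact Real.sq_sqrt hxap.le
  have hSn : ‖Xa * Xb‖ ≤ y ^ 3 := by
    have h2 : ‖Xa * Xb‖ ^ 2 ≤ (y ^ 3) ^ 2 := by
      rw [← norm_pow, mul_pow, hXa, hXb, norm_mul, Complex.norm_intCast, Complex.norm_intCast]
      calc |(xa : ℝ)| * |(xb : ℝ)| ≤ |(xa : ℝ)| * |(xa : ℝ)| ^ 2 :=
            mul_le_mul_of_nonneg_left hltR hxap.le
        _ = (y ^ 3) ^ 2 := by rw [← hy2]; ring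
    exact le_of_sq_le_sq h2 (by positivity)
  have hμ : ‖μa - μb‖ ≤ T / y ^ 2 := by
    calc ‖μa - μb‖ ≤ ‖μa‖ + ‖μb‖ := norm_sub_le _ _
      _ ≤ T / 2 / |(xa : ℝ)| + T / 2 / |(xa : ℝ)| := add_le_add hμaN hμbN
      _ = T / y ^ 2 := by rw [hy2]; ring
  obtain ⟨c0, c1, hlin⟩ := lin_of_small he hH g hmon hsep hcoef θ hθi hθ0 hθs v hvint (sa * sb)
    (ba * bb) (mul_ne_zero hba hbb) (by rw [mul_pow, hsa, hsb]; push_cast; rfl) (Ba * Bb * U)
    (fun i => by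
      rw [map_mul, map_mul, hU, hv]
      field_simp)
    (Xa * Xb) (-(Xa * Xb * ((μa + μb) / 2))) (T ^ 4 / y)
    (fun i => by
      have h2 := prod_near hXa hXb (hr i) hXa0 hXb0 (hr0 i) (hta i) (htb i) (hsign i) (h1a i)
        (h1b i)
      have h3 : v i - (Xa * Xb + -(Xa * Xb * ((μa + μb) / 2)) * θ i) =
          (aeval (θ i) Ba / sa) * (aeval (θ i) Bb / sb) / aeval (θ i) D -
            Xa * Xb * (1 - (μa + μb) / 2 * θ i) := by
        rw [hv]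
        ring
      rw [h3]
      refine h2.trans ?_
      calc ‖Xa * Xb‖ * ‖θ i‖ ^ 2 * ‖μa - μb‖ ^ 2 ≤ y ^ 3 * T ^ 2 * (T / y ^ 2) ^ 2 := by
            apply mul_le_mul _ (pow_le_pow_left₀ (norm_nonneg _) hμ _) (by positivity)
              (by positivity)
            exact mul_le_mul hSn (pow_le_pow_left₀ (norm_nonneg _) (hb i) _) (by positivity)
              (by positivity)
        _ = T ^ 4 / y := by
            field_simp)
    (by
      rw [← hT, mul_div_assoc', div_lt_one hy0, ← pow_add]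
      have h2 : (T ^ (4 * e ^ 2 + 3 * e + 4)) ^ 2 < y ^ 2 := by
        rw [hy2, ← pow_mul]
        calc T ^ ((4 * e ^ 2 + 3 * e + 4) * 2) < T ^ (8 * e ^ 2 + 6 * e + 12) := by
              apply pow_lt_pow_right₀ (by linarith)
              nlinarith
          _ ≤ _ := hla
      exact lt_of_pow_lt_pow_left₀ 2 hy0.le h2)
  exact line_eq he θ hθi c0 c1 (fun i => by rw [← hv2, hlin]) hma hmb ca cb

end Pool.Agent.K7.H23.AT
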