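import Pool.Agent.K7.H23.AT.Stm2

/-!
Project AT: classes for a product of irreducible polynomials.
-/

open Polynomial

set_option autoImplicit false

namespace Pool.Agent.K7.H23.AT

/-- distinct monic irreducible polynomials are coprime over `ℚ` -/
lemma coprime_map {f g : ℤ[X]} (hf : f.Monic) (hg : g.Monic) (hfi : Irreducible f)
    (hgi : Irreducible g) (h : f ≠ g) :
    IsCoprime (f.map (Int.castRingHom ℚ)) (g.map (Int.castRingHom ℚ)) := by
  have h1 : Irreducible (f.map (algebraMap ℤ ℚ)) :=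
    (hf.irreducible_iff_irreducible_map_fraction_map (K := ℚ)).1 hfi
  have h2 : Irreducible (g.map (algebraMap ℤ ℚ)) :=
    (hg.irreducible_iff_irreducible_map_fraction_map (K := ℚ)).1 hgi
  by_cases h3 : ¬ f.map (algebraMap ℤ ℚ) ∣ g.map (algebraMap ℤ ℚ)
  · exact h1.coprime_iff_not_dvd.2 h3
  · rw [not_not] at h3
    exfalso
    apply h
    have h4 : Associated (f.map (algebraMap ℤ ℚ)) (g.map (algebraMap ℤ ℚ)) :=
      h1.associated_of_dvd h2 h3
    have h5 := eq_of_monic_of_associated (hf.map _) (hg.map _) h4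
    exact Polynomial.map_injective _ (algebraMap ℤ ℚ).injective_int h5

/-- Chinese remainder theorem -/
lemma crt {k : ℕ} (f : Fin k → ℤ[X]) (hm : ∀ i, (f i).Monic) (hi : ∀ i, Irreducible (f i))
    (hinj : Function.Injective f) (D : Fin k → ℚ[X]) :
    ∃ E : ℚ[X], ∀ i, (f i).map (Int.castRingHom ℚ) ∣ E - D i := by
  obtain ⟨E, hE⟩ := Ideal.exists_forall_sub_mem_ideal
    (I := fun i => Ideal.span {(f i).map (Int.castRingHom ℚ)}) (by
      intro i j hij
      rw [Function.onFun, Ideal.isCoprime_span_singleton_iff]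
      exact coprime_map (hm i) (hm j) (hi i) (hi j) (fun h => hij (hinj h))) D
  exact ⟨E, fun i => Ideal.mem_span_singleton.1 (hE i)⟩

theorem pc (hCL : StCL) : StPC := by
  classical
  intro k f hm hi hinj
  choose c S hScard hSval hScl using fun i : Fin k => hCL (f i) (hm i) (hi i)
  choose E hE using crt f hm hi hinj
  refine ⟨2 ^ k * ∏ i, c i + 2 * ∑ i, c i, fun Y hY => ?_⟩
  obtain ⟨L, hL⟩ : ∃ L, L = Nat.log 2 Y := ⟨_, rfl⟩
  have hL2 : 2 ^ L ≤ Y := by rw [hL]; exact Nat.pow_log_le_self 2 (by omega)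
  have hone : ∀ a : ℕ, 1 ≤ 2 ^ (a + 1) := fun a => Nat.one_le_two_pow
  obtain ⟨A, hA⟩ : ∃ A : Finset (Fin k → Fin (L + 1)), A =
    Finset.univ.filter fun a => ∑ i, (a i : ℕ) ≤ L := ⟨_, rfl⟩
  refine ⟨A.biUnion fun a => (Fintype.piFinset fun i => S i (2 ^ ((a i : ℕ) + 1)) (hone _)).image E,
    ?_, ?_, ?_⟩
  · rw [← hL]
    have h1 : ∀ a ∈ A, ((Fintype.piFinset fun i => S i (2 ^ ((a i : ℕ) + 1)) (hone _)).image E).card
        ≤ 2 ^ k * (∏ i, c i) * Y := by
      intro a ha
      rw [hA, Finset.mem_filter] at ha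
      calc _ ≤ (Fintype.piFinset fun i => S i (2 ^ ((a i : ℕ) + 1)) (hone _)).card :=
            Finset.card_image_le
        _ = ∏ i, (S i (2 ^ ((a i : ℕ) + 1)) (hone _)).card := Fintype.card_piFinset _
        _ ≤ ∏ i, (c i * 2 ^ ((a i : ℕ) + 1)) :=
            Finset.prod_le_prod' fun i _ => hScard i _ (hone _)
        _ = (∏ i, c i) * 2 ^ (∑ i, (a i : ℕ) + k) := by
            rw [Finset.prod_mul_distrib, Finset.prod_pow_eq_pow_sum, Finset.sum_add_distrib]
            simp
        _ ≤ (∏ i, c i) * (Y * 2 ^ k) := by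
            apply Nat.mul_le_mul_left
            rw [pow_add]
            apply Nat.mul_le_mul_right
            exact (Nat.pow_le_pow_right (by norm_num) ha.2).trans hL2
        _ = 2 ^ k * (∏ i, c i) * Y := by ring
    calc _ ≤ ∑ a ∈ A, 2 ^ k * (∏ i, c i) * Y := Finset.card_biUnion_le.trans (Finset.sum_le_sum h1)
      _ = A.card * (2 ^ k * (∏ i, c i) * Y) := by rw [Finset.sum_const, smul_eq_mul]
      _ ≤ (L + 1) ^ k * (2 ^ k * (∏ i, c i) * Y) := by
          apply Nat.mul_le_mul_right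
          calc A.card ≤ (Finset.univ : Finset (Fin k → Fin (L + 1))).card := by
                rw [hA]; exact Finset.card_filter_le _ _
            _ = (L + 1) ^ k := by simp
      _ = (2 ^ k * ∏ i, c i) * Y * (L + 1) ^ k := by ring
      _ ≤ _ := by
          apply Nat.mul_le_mul_right
          apply Nat.mul_le_mul_right
          omega
  · intro D hD θ hθ
    rw [Finset.mem_biUnion] at hD
    obtain ⟨a, ha, hD⟩ := hD
    obtain ⟨D', hD', rfl⟩ := Finset.mem_image.1 hD
    rw [Fintype.mem_piFinset] at hD'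
    rw [map_prod, Finset.prod_eq_zero_iff] at hθ
    obtain ⟨i, -, hθi⟩ := hθ
    have h1 : aeval θ (E D') = aeval θ (D' i) := by
      obtain ⟨q, hq⟩ := hE D' i
      have h2 := congrArg (aeval θ) hq
      rw [map_sub, map_mul] at h2
      have h3 : aeval θ ((f i).map (Int.castRingHom ℚ)) = 0 := by
        rw [aeval_def, eval₂_map, ← hθi, aeval_def]
        congr 1
      rw [h3, zero_mul, sub_eq_zero] at h2
      exact h2
    rw [h1]
    obtain ⟨h4, h5, h6⟩ := hSval i _ (hone _) (D' i) (hD' i) θ hθi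
    refine ⟨h4, h5, h6.trans ?_⟩
    have h7 : c i * 2 ^ ((a i : ℕ) + 1) ≤ (2 ^ k * ∏ i, c i + 2 * ∑ i, c i) * Y := by
      have h8 : 2 ^ (a i : ℕ) ≤ Y := by
        refine le_trans (Nat.pow_le_pow_right (by norm_num) ?_) hL2
        have := (a i).2
        omega
      have h9 : c i ≤ ∑ i, c i := Finset.single_le_sum (f := c) (fun _ _ => Nat.zero_le _)
        (Finset.mem_univ i)
      calc c i * 2 ^ ((a i : ℕ) + 1) = 2 * c i * 2 ^ (a i : ℕ) := by rw [pow_succ]; ring
        _ ≤ (2 * ∑ i, c i) * Y := Nat.mul_le_mul (by omega) h8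
        _ ≤ _ := Nat.mul_le_mul_right _ (by omega)
    exact_mod_cast h7
  · intro x m g y hm0 hcop hsq hprod hy hval
    have hg0 : ∀ i, g i ≠ 0 := fun i => (hsq i).ne_zero
    have hg1 : ∀ i, 1 ≤ (g i).natAbs := fun i => Int.natAbs_pos.2 (hg0 i)
    have hprodN : ∏ i, (g i).natAbs ≤ Y := by
      have h1 : ((∏ i, (g i).natAbs : ℕ) : ℤ) ≤ Y := by
        push_cast
        exact hprod
      exact_mod_cast h1
    have hle : ∀ i, 2 ^ Nat.log 2 (g i).natAbs ≤ (g i).natAbs := fun i =>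
      Nat.pow_log_le_self 2 (by have := hg1 i; omega)
    have hlt : ∀ i, (g i).natAbs < 2 ^ (Nat.log 2 (g i).natAbs + 1) := fun i =>
      Nat.lt_pow_succ_log_self (by norm_num) _
    have hsum : ∑ i, Nat.log 2 (g i).natAbs ≤ L := by
      rw [hL]
      apply Nat.le_log_of_pow_le (by norm_num)
      calc 2 ^ ∑ i, Nat.log 2 (g i).natAbs = ∏ i, 2 ^ Nat.log 2 (g i).natAbs :=
            (Finset.prod_pow_eq_pow_sum _ _ _).symm
        _ ≤ ∏ i, (g i).natAbs := Finset.prod_le_prod' fun i _ => hle i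
        _ ≤ Y := hprodN
    have hlog : ∀ i, Nat.log 2 (g i).natAbs < L + 1 := by
      intro i
      have h1 : Nat.log 2 (g i).natAbs ≤ ∑ i, Nat.log 2 (g i).natAbs :=
        Finset.single_le_sum (f := fun i => Nat.log 2 (g i).natAbs)
          (fun _ _ => Nat.zero_le _) (Finset.mem_univ i)
      omega
    obtain ⟨a, ha⟩ : ∃ a : Fin k → Fin (L + 1), ∀ i, (a i : ℕ) = Nat.log 2 (g i).natAbs :=
      ⟨fun i => ⟨_, hlog i⟩, fun _ => rfl⟩
    have hcl : ∀ i, ∃ D ∈ S i (2 ^ ((a i : ℕ) + 1)) (hone _), ∃ B : ℚ[X],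
        (f i).map (Int.castRingHom ℚ) ∣ B ^ 2 - D * (C (x : ℚ) - C (m : ℚ) * X) := by
      intro i
      apply hScl i _ (hone _) x m (g i) (y i) hm0 hcop (hsq i) _ (hy i) (hval i)
      rw [ha i, ← Int.natCast_natAbs]
      exact_mod_cast (hlt i).le
    choose D' hD' B' hB' using hcl
    refine ⟨E D', ?_, E B', ?_⟩
    · rw [Finset.mem_biUnion]
      refine ⟨a, ?_, Finset.mem_image_of_mem _ ?_⟩
      · rw [hA, Finset.mem_filter]
        refine ⟨Finset.mem_univ _, ?_⟩
        have h1 : ∑ i, (a i : ℕ) = ∑ i, Nat.log 2 (g i).natAbs :=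
          Finset.sum_congr rfl fun i _ => ha i
        exact h1.trans_le hsum
      · rw [Fintype.mem_piFinset]
        exact hD'
    · rw [Polynomial.map_prod]
      apply Finset.prod_dvd_of_coprime
      · intro i _ j _ hij
        exact coprime_map (hm i) (hm j) (hi i) (hi j) (fun h => hij (hinj h))
      · intro i _
        have h1 := hE D' i
        have h2 := hE B' i
        have h3 : E B' ^ 2 - E D' * (C (x : ℚ) - C (m : ℚ) * X) =
            (E B' - B' i) * (E B' + B' i) - (E D' - D' i) * (C (x : ℚ) - C (m : ℚ) * X) +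
              (B' i ^ 2 - D' i * (C (x : ℚ) - C (m : ℚ) * X)) := by ring
        rw [h3]
        exact dvd_add (dvd_sub (h2.mul_right _) (h1.mul_right _)) (hB' i)

end Pool.Agent.K7.H23.AT
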