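import Pool.Agent.K7.H23.AT.Data
import Pool.Agent.Y396.FC.SG
import Pool.Agent.Y525.FC.INT
import Pool.Agent.Y907.FC.FLIP
import Pool.Agent.Y396.FC.IRR
import Pool.Agent.Y79.FT.PL
import Pool.Agent.Y876.FC.GEN
import Pool.Agent.Y774.FT.EV

/-!
Project AT: the place at infinity near a large point.
-/

open Polynomial IntermediateField

set_option autoImplicit false

namespace Pool.Agent.K7.H23.AT

open Pool.Agent.H322R2 Pool.Agent.Y910.G Pool.Agent.Y910.R Pool.Agent.Y910.E Pool.Agent.Y910.A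
open Pool.Agent.Y910.F

/-- the values of `B` at the roots -/
lemma root_sq (g : ℤ[X]) (D : ℚ[X]) (b x m : ℤ) (B : ℚ[X])
    (hB : g.map (Int.castRingHom ℚ) ∣ B ^ 2 - C (b : ℚ) * D * (C (x : ℚ) - C (m : ℚ) * X)) (r : ℂ)
    (hr : aeval r g = 0) : (aeval r B) ^ 2 = b * aeval r D * (x - m * r) := by
  obtain ⟨Q, hQ⟩ := hB
  have h3 := congrArg (fun P => aeval r P) hQ
  simp only [map_sub, map_pow, map_mul, aeval_C, aeval_X] at h3
  have h4 : aeval r (g.map (Int.castRingHom ℚ)) = 0 := by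
    rw [aeval_def, eval₂_map, ← hr, aeval_def]
    congr 1
  rw [h4, zero_mul, sub_eq_zero] at h3
  rw [h3]
  simp

lemma int_pt (d w : ℕ) (g : ℤ[X]) (hmon : g.Monic)
    (hsep : (g.map (Int.castRingHom ℚ)).Separable) (D : ℚ[X])
    (hD : ∀ θ : ℂ, aeval θ g = 0 → IsIntegral ℤ (aeval θ D)) (b x m : ℤ) (hb : b ≠ 0) (B : ℚ[X])
    (hB : g.map (Int.castRingHom ℚ) ∣ B ^ 2 - C (b : ℚ) * D * (C (x : ℚ) - C (m : ℚ) * X))
    (θ : Fin d → ℂ) (hθ0 : ∀ i, aeval (θ i) g = 0)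
    (hθs : ∀ F : ℂ → ℂ, ∑ i, F (θ i) =
      ∑ r ∈ ((g.map (Int.castRingHom ℚ)).map (algebraMap ℚ ℂ)).roots.toFinset, F r) :
    ∃ t : Fin d → ℂ, (∀ i, t i ^ 2 = (wt d w (θ i) ^ 2 * aeval (θ i) D) * (x - m * θ i)) ∧
    ∃ y : ℤ, (y : ℂ) = (∑ i, t i) ^ 2 := by
  have hbC : (b : ℂ) ≠ 0 := by exact_mod_cast hb
  obtain ⟨s, hs⟩ : ∃ s : ℂ, s ^ 2 = b := IsAlgClosed.exists_pow_nat_eq _ (by norm_num)
  have hs0 : s ≠ 0 := by
    rintro rfl
    rw [zero_pow two_ne_zero] at hs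
    exact hbC hs.symm
  have ht2 : ∀ i, (wt d w (θ i) * aeval (θ i) B / s) ^ 2 =
      (wt d w (θ i) ^ 2 * aeval (θ i) D) * (x - m * θ i) := by
    intro i
    rw [div_pow, mul_pow, root_sq g D b x m B hB _ (hθ0 i), hs]
    field_simp
  refine ⟨fun i => wt d w (θ i) * aeval (θ i) B / s, ht2, ?_⟩
  obtain ⟨q, hq⟩ := trace_rat _ hsep (wp d w * B)
  have h1 : (q : ℂ) = ∑ i, wt d w (θ i) * aeval (θ i) B := by
    rw [← hq, ← hθs fun r => ((wp d w * B).map (algebraMap ℚ ℂ)).eval r]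
    refine Finset.sum_congr rfl fun i _ => ?_
    rw [eval_map_algebraMap, map_mul, wp_eval]
  have hsum : (∑ i, wt d w (θ i) * aeval (θ i) B / s) ^ 2 = ((q ^ 2 / b : ℚ) : ℂ) := by
    rw [← Finset.sum_div, ← h1, div_pow, hs]
    push_cast
    rfl
  have hθint : ∀ i, IsIntegral ℤ (θ i) := fun i => ⟨g, hmon, hθ0 i⟩
  have hz : ∀ n : ℤ, IsIntegral ℤ (n : ℂ) := fun n => isIntegral_algebraMap (R := ℤ) (x := n)
  have hwint : ∀ i, IsIntegral ℤ (wt d w (θ i)) := by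
    intro i
    rw [wt]
    apply IsIntegral.sum
    intro l _
    have h1 : ((w : ℂ)) = ((w : ℤ) : ℂ) := by push_cast; rfl
    rw [h1]
    exact ((hz _).pow _).mul ((hθint i).pow _)
  have hint : IsIntegral ℤ ((∑ i, wt d w (θ i) * aeval (θ i) B / s) ^ 2) := by
    apply IsIntegral.pow
    apply IsIntegral.sum
    intro i _
    apply IsIntegral.of_pow (n := 2) (by norm_num)
    rw [ht2]
    exact (((hwint i).pow 2).mul (hD _ (hθ0 i))).mul ((hz _).sub ((hz _).mul (hθint i)))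
  rw [hsum] at hint ⊢
  have h3 : IsIntegral ℤ (q ^ 2 / b : ℚ) := by
    have h4 : IsIntegral ℤ (algebraMap ℚ ℂ (q ^ 2 / b : ℚ)) := by simpa using hint
    exact (isIntegral_algebraMap_iff (algebraMap ℚ ℂ).injective).1 h4
  obtain ⟨z, hz⟩ := IsIntegrallyClosed.isIntegral_iff.1 h3
  refine ⟨z, ?_⟩
  rw [← hz]
  simp

/-- The data near a large point: a real number `ρ` of degree at least three whose minimal polynomial
has the root `w0`, which does not depend on the point and on the scaling. -/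
theorem nearS (d : ℕ) (hd : 3 ≤ d) : ∃ M1 m2 : ℕ, 1 ≤ m2 ∧ ∀ (H : ℕ) (g : ℤ[X]) (D : ℚ[X]),
    1 ≤ H → g.Monic → g.natDegree = d →
    (g.map (Int.castRingHom ℚ)).Separable → (∀ i, |g.coeff i| ≤ H) →
    (∀ θ : ℂ, aeval θ g = 0 → IsIntegral ℤ (aeval θ D) ∧ aeval θ D ≠ 0 ∧ ‖aeval θ D‖ ≤ H) →
    ∃ w0 : ℂ, ∀ (m x b : ℤ) (B : ℚ[X]), m ≠ 0 → |m| ≤ H → b ≠ 0 →
      g.map (Int.castRingHom ℚ) ∣ B ^ 2 - C (b : ℚ) * D * (C (x : ℚ) - C (m : ℚ) * X) →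
      |x| ≤ (((2 * H) ^ m2 : ℕ) : ℤ) ^ M1 ∨
      ∃ (K₁ : IntermediateField ℚ ℝ) (ρ : ℝ),
        Near M1 ((((2 * H) ^ m2 : ℕ) : ℝ) ^ 3) (1 + |(x : ℝ)|) K₁ ∧ ℚ⟮ρ⟯ ≤ K₁ ∧
        3 ≤ Module.finrank ℚ ℚ⟮ρ⟯ ∧ aeval w0 (minpoly ℚ ρ) = 0 ∧ IsIntegral ℚ ρ := by
  classical
  have hSG := Pool.Agent.Y396.FC.SG.done
  have hINT := Pool.Agent.Y525.FC.done hSG
  have hFLIP := Pool.Agent.Y907.FC.FLIP.done
  have hIRR := Pool.Agent.Y396.FC.IRR.done
  have hPL3 := Pool.Agent.Y79.FT.done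
  have hGEN := Pool.Agent.Y876.FC.done
  have hEV := Pool.Agent.Y774.FT.done
  obtain ⟨M1, hM1⟩ := monic_struct (2 ^ (d - 1)) Nat.one_le_two_pow
  obtain ⟨i0, hi0⟩ : ∃ i0 : Fin d, i0.1 = 0 := ⟨⟨0, by omega⟩, rfl⟩
  obtain ⟨i1, hi1⟩ : ∃ i1 : Fin d, i1.1 = 1 := ⟨⟨1, by omega⟩, rfl⟩
  obtain ⟨m2, hm2, hcd⟩ := cdataS hSG hINT hGEN d hd i0 i1 ⟨hi0, hi1⟩
  refine ⟨M1, m2, hm2, ?_⟩
  intro H g D hH hmon hdeg hsep hcoef hD
  obtain ⟨w, θ, u, hθi, hθ0, hθs, hu0, hu2, hgen, hF⟩ := hcd H g D hH hmon hdeg hsep hcoef hD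
  have hsq : ∀ i, ∃ v : ℂ, v ^ 2 = u i := fun i => IsAlgClosed.exists_pow_nat_eq _ (by norm_num)
  choose c0 hc0 using hsq
  refine ⟨(∑ i, c0 i) ^ 2, ?_⟩
  intro m x b B hm0 hmH hb hB
  have hmC : (m : ℂ) ≠ 0 := by exact_mod_cast hm0
  obtain ⟨F, hFm, hFd, hFs, hpn⟩ := hF m hm0 hmH
  obtain ⟨G, hGm, hGd, hFG, hdegG⟩ := hEV d (by omega) F (fun i => C (u i) * (X - C ((m : ℂ) * θ i)))
    (fun i => (natDegree_C_mul_le _ _).trans (natDegree_X_sub_C _).le) hFm hFd hFs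
  obtain ⟨hprime, L, _, _, α, β, hev, htr, hgenL, hpl⟩ :=
    singleE hSG hFLIP hIRR hPL3 (fun i => (m : ℂ) * θ i) u
      (fun i j hij => hθi (mul_left_cancel₀ hmC hij)) hu0 F G hFm hFd hFs hFG
  replace hpn := (pn_expand F G hFG).trans hpn
  obtain ⟨T, hT⟩ : ∃ T : ℕ, T = (2 * H) ^ m2 := ⟨_, rfl⟩
  rw [← hT] at hpn ⊢
  have hT2 : 2 ≤ T := by
    rw [hT]
    calc 2 ≤ 2 * H := by omega
      _ = (2 * H) ^ 1 := (pow_one _).symm
      _ ≤ _ := Nat.pow_le_pow_right (by omega) hm2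
  obtain ⟨t, ht, z, hzt⟩ := int_pt d w g hmon hsep D (fun r hr => (hD r hr).1) b x m hb B hB θ
    hθ0 hθs
  have hz : ev x z G = 0 := by
    have h3 := root_sum hSG F _ hFs (evalRingHom (x : ℂ)) t (by
        intro i
        simp only [coe_evalRingHom, eval_mul, eval_C, eval_sub, eval_X]
        rw [ht i, hu2])
    rw [hFG, expand_eq_comp_X_pow, eval₂_comp, eval₂_X_pow, ← hzt, ← evf_eq] at h3
    have h4 : ((ev x z G : ℤ) : ℂ) = 0 := by
      have h5 := map_ev (Int.castRingHom ℂ) x z G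
      rw [ev_apply, ev_apply] at h5
      rw [← h3, ev_apply]
      exact h5
    exact_mod_cast h4
  have hTR : (1 : ℝ) ≤ T := by exact_mod_cast (by omega : 1 ≤ T)
  rcases hM1 T hT2 G hGm hGd hprime (fun j => (hdegG j).trans (Nat.sub_le _ _)) hpn L α β hev htr
    hgenL x z hz with h | ⟨A, hA, q, hq1, hq2, hq3, η, hη, hbig⟩
  · exact Or.inl h
  · right
    have hzb := abs_b_le hGm hGd ⟨hGd.le, hdegG⟩ hTR hpn x z hz
    have hnear := near_of_big hT2 hzb hbig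
    obtain ⟨ρ, hρη, cc, hcc, hroot⟩ := hpl A hA q hq1 hq2 hq3 η hη
    have hηint : IsIntegral ℚ η := ⟨q, hq1, hη⟩
    have hfd : FiniteDimensional ℚ ℚ⟮η⟯ := IntermediateField.adjoin.finiteDimensional hηint
    have hρint : IsIntegral ℚ ρ := by
      have h3 : IsIntegral ℚ (⟨ρ, hρη⟩ : ℚ⟮η⟯) := IsIntegral.of_finite ℚ _
      exact h3.map (ℚ⟮η⟯).val
    -- degree at least three
    have hflip : ∀ i1 : Fin d, aeval ((∑ i, cc i - 2 * cc i1) ^ 2) (minpoly ℚ ρ) = 0 := by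
      intro i1
      have h3 := hroot (fun i => if i = i1 then -1 else 1) (by
        intro i
        by_cases h : i = i1
        · right; simp [h]
        · left; simp [h])
      have h4 : ∑ i, (((if i = i1 then -1 else 1 : ℤ)) : ℂ) * cc i = ∑ i, cc i - 2 * cc i1 := by
        have h5 : ∀ i, (((if i = i1 then -1 else 1 : ℤ)) : ℂ) * cc i =
            cc i - (if i = i1 then 2 * cc i else 0) := by
          intro i
          split_ifs with h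
          · push_cast; ring
          · push_cast; ring
        rw [Finset.sum_congr rfl fun i _ => h5 i, Finset.sum_sub_distrib, Finset.sum_ite_eq']
        simp
      rw [h4] at h3
      exact h3
    have hfull : aeval ((∑ i, cc i) ^ 2) (minpoly ℚ ρ) = 0 := by
      have h3 := hroot (fun _ => 1) (fun _ => Or.inl rfl)
      simpa using h3
    obtain ⟨hg1, hg2, hg3⟩ := hgen cc hcc
    have h3 : 3 ≤ Module.finrank ℚ ℚ⟮ρ⟯ :=
      three_roots ρ hρint _ _ _ hg1 hg2 hg3 hfull (hflip i0) (hflip i1)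
    have hsign : ∀ i, ∃ e : ℤ, (e = 1 ∨ e = -1) ∧ (e : ℂ) * cc i = c0 i := by
      intro i
      have h4 : c0 i ^ 2 = cc i ^ 2 := by rw [hc0, hcc]
      rcases sq_eq_sq_iff_eq_or_eq_neg.1 h4 with h5 | h5
      · exact ⟨1, Or.inl rfl, by rw [h5]; simp⟩
      · exact ⟨-1, Or.inr rfl, by rw [h5]; simp⟩
    choose e he1 he2 using hsign
    have h4 := hroot e he1
    rw [Finset.sum_congr rfl fun i _ => he2 i] at h4
    refine ⟨ℚ⟮η⟯, ρ, hnear, ?_, h3, h4, hρint⟩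
    rw [IntermediateField.adjoin_simple_le_iff]
    exact hρη

end Pool.Agent.K7.H23.AT
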