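import Pool.Agent.K7.H23.AT.Gap3

/-!
Project AT: few large points in a class, for all scalings together.
-/

open Polynomial IntermediateField

set_option autoImplicit false

namespace Pool.Agent.K7.H23.AT

open Pool.Agent.H322R2 Pool.Agent.Y910.G Pool.Agent.Y910.R Pool.Agent.Y910.E Pool.Agent.Y910.A
open Pool.Agent.Y910.F

/-- a chain with squaring gaps -/
lemma chain_aux {α : Type*} [DecidableEq α] (φ : α → ℕ) (n : ℕ) : ∀ A : Finset α, A.card = n + 1 →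
    (∀ a ∈ A, ∀ b ∈ A, a ≠ b → φ a ≤ φ b → φ a ^ 2 ≤ φ b) →
    ∃ a ∈ A, ∃ b ∈ A, φ a ^ (2 ^ n) ≤ φ b := by
  induction n with
  | zero =>
    intro A hA _
    obtain ⟨a, ha⟩ := Finset.card_pos.1 (by omega : 0 < A.card)
    exact ⟨a, ha, a, ha, by simp⟩
  | succ n ih =>
    intro A hA hgap
    obtain ⟨b, hb, hmax⟩ := Finset.exists_max_image A φ (Finset.card_pos.1 (by omega))
    obtain ⟨a, ha, b', hb', h⟩ := ih (A.erase b) (by rw [Finset.card_erase_of_mem hb]; omega)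
      (fun a ha b' hb' => hgap a (Finset.mem_of_mem_erase ha) b' (Finset.mem_of_mem_erase hb'))
    refine ⟨a, Finset.mem_of_mem_erase ha, b, hb, ?_⟩
    have h1 := hgap b' (Finset.mem_of_mem_erase hb') b hb (Finset.ne_of_mem_erase hb')
      (hmax b' (Finset.mem_of_mem_erase hb'))
    calc φ a ^ (2 ^ (n + 1)) = (φ a ^ (2 ^ n)) ^ 2 := by rw [← pow_mul, pow_succ]
      _ ≤ φ b' ^ 2 := Nat.pow_le_pow_left h 2
      _ ≤ φ b := h1

lemma chain {α : Type*} [DecidableEq α] (φ : α → ℕ) (L : ℕ) (A : Finset α)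
    (h2 : ∀ a ∈ A, 2 ≤ φ a)
    (hgap : ∀ a ∈ A, ∀ b ∈ A, a ≠ b → φ a ≤ φ b → φ a ^ 2 ≤ φ b)
    (hL : ∀ a ∈ A, ∀ b ∈ A, φ b ≤ φ a ^ L) : A.card ≤ L := by
  rcases Nat.eq_zero_or_pos A.card with h | h
  · omega
  · obtain ⟨n, hn⟩ : ∃ n, A.card = n + 1 := ⟨A.card - 1, by omega⟩
    obtain ⟨a, ha, b, hb, h1⟩ := chain_aux φ n A hn hgap
    have h3 := h1.trans (hL a ha b hb)
    have h4 : 2 ^ n ≤ L := (Nat.pow_le_pow_iff_right (by have := h2 a ha; omega)).1 h3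
    have h5 : n < 2 ^ n := Nat.lt_two_pow_self
    omega

theorem sf : StSF := by
  classical
  intro e he
  obtain ⟨M1, m2, hm2, hnear⟩ := nearS e he
  obtain ⟨K, hK⟩ := repel_near M1
  refine ⟨m2 * M1 + 3 * m2 * K + 3 * m2 + (8 * e ^ 2 + 6 * e + 12), (4 * K) * (M1 * 2 ^ e), ?_⟩
  intro H g D s hH hmon hdeg hsep hcoef hD hs
  obtain ⟨w0, hw0⟩ := hnear H g D hH hmon hdeg hsep hcoef hD
  obtain ⟨θ, hθi, hθ0, hθs⟩ := exists_enum g hsep e hdeg
  -- sizes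
  obtain ⟨W, hW⟩ : ∃ W : ℕ, W = 2 * H := ⟨_, rfl⟩
  have hW2 : 2 ≤ W := by omega
  have hbig : ∀ p ∈ s, ∀ n : ℕ, n ≤ m2 * M1 + 3 * m2 * K + 3 * m2 + (8 * e ^ 2 + 6 * e + 12) →
      W ^ n < p.1.natAbs := by
    intro p hp n hn
    have h1 := (hs p hp).2.2.2.1
    have h2 : (W ^ n : ℕ) ≤ W ^ (m2 * M1 + 3 * m2 * K + 3 * m2 + (8 * e ^ 2 + 6 * e + 12)) :=
      Nat.pow_le_pow_right (by omega) hn
    have h3 : ((W ^ (m2 * M1 + 3 * m2 * K + 3 * m2 + (8 * e ^ 2 + 6 * e + 12)) : ℕ) : ℤ) <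
        (p.1.natAbs : ℤ) := by
      rw [Int.natCast_natAbs, hW]
      push_cast
      exact h1
    omega
  have hx2 : ∀ p ∈ s, 2 ≤ p.1.natAbs := by
    intro p hp
    have := hbig p hp 0 (by omega)
    have h1 := hbig p hp 1 (by omega)
    rw [pow_one] at h1
    omega
  -- the data of the points
  have hdat : ∀ p : ℤ × ℤ, p ∈ s → ∃ (b : ℤ) (B : ℚ[X]) (K₁ : IntermediateField ℚ ℝ) (ρ : ℝ),
      b ≠ 0 ∧ g.map (Int.castRingHom ℚ) ∣
        B ^ 2 - C (b : ℚ) * D * (C (p.1 : ℚ) - C (p.2 : ℚ) * X) ∧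
      Near M1 (((W ^ m2 : ℕ) : ℝ) ^ 3) (1 + |(p.1 : ℝ)|) K₁ ∧ ℚ⟮ρ⟯ ≤ K₁ ∧
      3 ≤ Module.finrank ℚ ℚ⟮ρ⟯ ∧ aeval w0 (minpoly ℚ ρ) = 0 ∧ IsIntegral ℚ ρ := by
    intro p hp
    obtain ⟨h1, h2, h3, h4, b, hb, B, hB⟩ := hs p hp
    rcases hw0 p.2 p.1 b B h1.ne' (by rw [abs_of_pos h1]; exact h2) hb hB with h | ⟨K₁, ρ, h5⟩
    · exfalso
      have h6 := hbig p hp (m2 * M1) (by omega)
      have h7 : ((p.1.natAbs : ℕ) : ℤ) ≤ ((W ^ (m2 * M1) : ℕ) : ℤ) := by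
        rw [Int.natCast_natAbs]
        refine h.trans (le_of_eq ?_)
        rw [pow_mul, hW]
        push_cast
        rfl
      omega
    · rw [← hW] at h5
      exact ⟨b, B, K₁, ρ, hb, hB, h5⟩
  choose! b B K₁ ρ hb hB hNear hle h3 hw hρ using hdat
  choose X' hX' using fun x : ℤ => (IsAlgClosed.exists_pow_nat_eq (x : ℂ) (n := 2) (by norm_num))
  choose r hr using fun i : Fin e =>
    (IsAlgClosed.exists_pow_nat_eq (aeval (θ i) D : ℂ) (n := 2) (by norm_num))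
  obtain ⟨σ, hσ⟩ : ∃ σ : ℤ × ℤ → Finset (Fin e), ∀ p i, i ∈ σ p ↔
      ‖aeval (θ i) (B p) / X' (b p) - X' p.1 * r i‖ ≤
        ‖aeval (θ i) (B p) / X' (b p) + X' p.1 * r i‖ :=
    ⟨fun p => Finset.univ.filter fun i =>
      ‖aeval (θ i) (B p) / X' (b p) - X' p.1 * r i‖ ≤
        ‖aeval (θ i) (B p) / X' (b p) + X' p.1 * r i‖, fun p i => by
      rw [Finset.mem_filter]
      exact ⟨fun h => h.2, fun h => ⟨Finset.mem_univ _, h⟩⟩⟩
  -- the classes
  have hcl : s.card ≤ (4 * K) * (s.image fun p => (ρ p, σ p)).card := by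
    apply Finset.card_le_mul_card_image
    rintro ⟨ρ0, σ0⟩ -
    apply chain (fun p : ℤ × ℤ => p.1.natAbs)
    · intro p hp
      exact hx2 p (Finset.mem_filter.1 hp).1
    · intro p hp q hq hpq hle'
      rw [Finset.mem_filter, Prod.mk.injEq] at hp hq
      obtain ⟨hp, hpρ, hpσ⟩ := hp
      obtain ⟨hq, hqρ, hqσ⟩ := hq
      by_contra hcon
      apply hpq
      have hle2 : |p.1| ≤ |q.1| := by
        rw [← Int.natCast_natAbs, ← Int.natCast_natAbs]
        exact_mod_cast hle'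
      have hcon2 : |q.1| ≤ |p.1| ^ 2 := by
        rw [← Int.natCast_natAbs, ← Int.natCast_natAbs]
        have := (not_le.1 hcon).le
        exact_mod_cast this
      have hlarge : (2 * H : ℤ) ^ (8 * e ^ 2 + 6 * e + 12) ≤ |p.1| := by
        have h6 := (hbig p hp (8 * e ^ 2 + 6 * e + 12) (by omega)).le
        rw [← Int.natCast_natAbs]
        rw [hW] at h6
        exact_mod_cast h6
      obtain ⟨e1, e2⟩ := gap he hH g hmon hsep hcoef θ hθi hθ0 hθs D (fun z hz => (hD z hz).2.1) r hr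
        (hb p hp) (hb q hq) (hB p hp) (hB q hq) (hs p hp).1 (hs q hq).1 (hs p hp).2.1 (hs q hq).2.1
        (hs p hp).2.2.1 (hs q hq).2.2.1 (hX' p.1) (hX' q.1) (hX' (b p)) (hX' (b q))
        (fun i => by rw [← hσ, ← hσ, hpσ, hqσ]) hlarge hle2 hcon2
      exact Prod.ext e1 e2
    · intro p hp q hq
      rw [Finset.mem_filter, Prod.mk.injEq] at hp hq
      obtain ⟨hp, hpρ, hpσ⟩ := hp
      obtain ⟨hq, hqρ, hqσ⟩ := hq
      obtain ⟨l, hl⟩ : ∃ l : ℝ, l = ((W ^ m2 : ℕ) : ℝ) ^ 3 := ⟨_, rfl⟩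
      have hnp := hNear p hp
      have hnq := hNear q hq
      rw [← hl] at hnp hnq
      have hl2 : 2 ≤ l := by
        rw [hl]
        have h1 : 2 ≤ (W ^ m2) ^ 3 := by
          calc 2 ≤ W ^ 1 := by rw [pow_one]; exact hW2
            _ ≤ W ^ (m2 * 3) := Nat.pow_le_pow_right (by omega) (by omega)
            _ = (W ^ m2) ^ 3 := pow_mul _ _ _
        exact_mod_cast h1
      have hlx : l ≤ 1 + |(p.1 : ℝ)| := by
        have h1 := hbig p hp (m2 * 3) (by omega)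
        rw [hl]
        have h2 : ((W ^ m2) ^ 3 : ℕ) ≤ 1 + p.1.natAbs := by
          rw [← pow_mul]
          omega
        have h3 : (((W ^ m2) ^ 3 : ℕ) : ℝ) ≤ ((1 + p.1.natAbs : ℕ) : ℝ) := by exact_mod_cast h2
        push_cast at h3 ⊢
        rwa [Nat.cast_natAbs, Int.cast_abs] at h3
      have hlK : l ^ K < 1 + |(p.1 : ℝ)| := by
        have h1 := hbig p hp (m2 * 3 * K) (by nlinarith)
        rw [hl]
        have h2 : ((W ^ m2) ^ 3) ^ K < 1 + p.1.natAbs := by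
          rw [← pow_mul, ← pow_mul, ← mul_assoc]
          omega
        have h3 : ((((W ^ m2) ^ 3) ^ K : ℕ) : ℝ) < ((1 + p.1.natAbs : ℕ) : ℝ) := by
          exact_mod_cast h2
        push_cast at h3 ⊢
        rwa [Nat.cast_natAbs, Int.cast_abs] at h3
      have hfd₁ : FiniteDimensional ℚ (K₁ p) := by
        obtain ⟨N, r, hN, hr, hNM, hrM, hnf, h⟩ := hnp
        exact hnf.to_finiteDimensional
      have hfd : FiniteDimensional ℚ (K₁ q) := by
        obtain ⟨N, r, hN, hr, hNM, hrM, hnf, h⟩ := hnq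
        exact hnf.to_finiteDimensional
      have hle1 : ℚ⟮ρ0⟯ ≤ K₁ p := by rw [← hpρ]; exact hle p hp
      have hle2 : ℚ⟮ρ0⟯ ≤ K₁ q := by rw [← hqρ]; exact hle q hq
      have hk3 : 3 ≤ Module.finrank ℚ ℚ⟮ρ0⟯ := by rw [← hpρ]; exact h3 p hp
      have hdeg' := Pool.Agent.W571.ESG.main_fld ℚ⟮ρ0⟯ (K₁ p) (K₁ q) hle1 hle2 hfd₁ hfd
      have h5 : 3 * Module.finrank ℚ ↥(K₁ p ⊔ K₁ q)
          ≤ Module.finrank ℚ (K₁ p) * Module.finrank ℚ (K₁ q) := by
        refine le_trans ?_ hdeg'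
        rw [mul_comm]
        exact Nat.mul_le_mul_left _ hk3
      have h6 := hK hl2 hl2 hnp hlK hnq h5
      have hx2' : (2 : ℝ) ≤ |(p.1 : ℝ)| := by
        have h7 : ((2 : ℕ) : ℝ) ≤ ((p.1.natAbs : ℕ) : ℝ) := by exact_mod_cast hx2 p hp
        rwa [Nat.cast_natAbs, Int.cast_abs] at h7
      have h7 : |(q.1 : ℝ)| ≤ |(p.1 : ℝ)| ^ (4 * K) := by
        calc |(q.1 : ℝ)| ≤ 1 + |(q.1 : ℝ)| := by linarith
          _ ≤ ((1 + |(p.1 : ℝ)|) * l) ^ K := h6
          _ ≤ ((1 + |(p.1 : ℝ)|) * (1 + |(p.1 : ℝ)|)) ^ K := by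
              apply pow_le_pow_left₀ (by positivity)
              exact mul_le_mul_of_nonneg_left hlx (by positivity)
          _ ≤ (|(p.1 : ℝ)| ^ 4) ^ K := by
              apply pow_le_pow_left₀ (by positivity)
              have h8 : 1 + |(p.1 : ℝ)| ≤ |(p.1 : ℝ)| ^ 2 := by nlinarith
              calc (1 + |(p.1 : ℝ)|) * (1 + |(p.1 : ℝ)|) ≤ |(p.1 : ℝ)| ^ 2 * |(p.1 : ℝ)| ^ 2 :=
                    mul_le_mul h8 h8 (by positivity) (by positivity)
                _ = |(p.1 : ℝ)| ^ 4 := by ring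
          _ = |(p.1 : ℝ)| ^ (4 * K) := (pow_mul _ _ _).symm
      have h8 : ((q.1.natAbs : ℕ) : ℝ) ≤ ((p.1.natAbs ^ (4 * K) : ℕ) : ℝ) := by
        push_cast
        rw [Nat.cast_natAbs, Nat.cast_natAbs, Int.cast_abs, Int.cast_abs]
        exact h7
      exact_mod_cast h8
  refine hcl.trans (Nat.mul_le_mul_left _ ?_)
  -- the number of classes
  have hsub : (s.image fun p => (ρ p, σ p)) ⊆ (s.image ρ) ×ˢ (Finset.univ : Finset (Finset (Fin e))) := by
    intro z hz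
    obtain ⟨p, hp, rfl⟩ := Finset.mem_image.1 hz
    exact Finset.mem_product.2 ⟨Finset.mem_image_of_mem _ hp, Finset.mem_univ _⟩
  refine (Finset.card_le_card hsub).trans ?_
  rw [Finset.card_product, Finset.card_univ, Fintype.card_finset, Fintype.card_fin]
  refine Nat.mul_le_mul_right _ ?_
  rcases s.eq_empty_or_nonempty with h0 | ⟨p0, hp0⟩
  · rw [h0, Finset.image_empty, Finset.card_empty]
    exact Nat.zero_le _
  · have hmin : ∀ p ∈ s, minpoly ℚ (ρ p) = minpoly ℚ w0 := fun p hp =>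
      minpoly.eq_of_irreducible_of_monic (minpoly.irreducible (hρ p hp)) (hw p hp)
        (minpoly.monic (hρ p hp))
    have hne : minpoly ℚ w0 ≠ 0 := by rw [← hmin p0 hp0]; exact minpoly.ne_zero (hρ p0 hp0)
    have hsub2 : s.image ρ ⊆ ((minpoly ℚ w0).map (algebraMap ℚ ℝ)).roots.toFinset := by
      intro z hz
      obtain ⟨p, hp, rfl⟩ := Finset.mem_image.1 hz
      rw [Multiset.mem_toFinset, mem_roots', IsRoot.def, eval_map_algebraMap]
      refine ⟨(Polynomial.map_ne_zero_iff (algebraMap ℚ ℝ).injective).2 hne, ?_⟩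
      rw [← hmin p hp]
      exact minpoly.aeval ℚ (ρ p)
    calc (s.image ρ).card ≤ ((minpoly ℚ w0).map (algebraMap ℚ ℝ)).roots.toFinset.card :=
          Finset.card_le_card hsub2
      _ ≤ Multiset.card ((minpoly ℚ w0).map (algebraMap ℚ ℝ)).roots := Multiset.toFinset_card_le _
      _ ≤ ((minpoly ℚ w0).map (algebraMap ℚ ℝ)).natDegree := card_roots' _
      _ = (minpoly ℚ (ρ p0)).natDegree := by rw [natDegree_map, hmin p0 hp0]
      _ = Module.finrank ℚ ℚ⟮ρ p0⟯ := (IntermediateField.adjoin.finrank (hρ p0 hp0)).symm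
      _ ≤ M1 := by
          obtain ⟨N, r, hN, hr, hNM, hrM, hnf, G', a', b', α', B', hfr, h⟩ := hNear p0 hp0
          have hfd : FiniteDimensional ℚ (K₁ p0) := hnf.to_finiteDimensional
          refine (IntermediateField.finrank_le_of_le_right (hle p0 hp0)).trans ?_
          rw [hfr]
          exact hrM

end Pool.Agent.K7.H23.AT
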