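import Pool.Agent.K7.H23.AT.Stm

/-!
Project AT, part 2: classes for a product of irreducible polynomials.
-/

open Polynomial

set_option autoImplicit false

namespace Pool.Agent.K7.H23.AT

/-- Job PC: `StCL → StPC` (Chinese remainder theorem and dyadic counting). -/
def StPC : Prop :=
  ∀ (k : ℕ) (f : Fin k → ℤ[X]), (∀ i, (f i).Monic) → (∀ i, Irreducible (f i)) →
    Function.Injective f → ∃ c : ℕ, ∀ Y : ℕ, 1 ≤ Y →
    ∃ S : Finset ℚ[X], S.card ≤ c * Y * (Nat.log 2 Y + 1) ^ k ∧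
      (∀ D ∈ S, ∀ θ : ℂ, aeval θ (∏ i, f i) = 0 →
        IsIntegral ℤ (aeval θ D) ∧ aeval θ D ≠ 0 ∧ ‖aeval θ D‖ ≤ c * Y) ∧
      ∀ (x m : ℤ) (g y : Fin k → ℤ), m ≠ 0 → IsCoprime x m → (∀ i, Squarefree (g i)) →
        ∏ i, |g i| ≤ Y → (∀ i, y i ≠ 0) →
        (∀ i, ((f i).scaleRoots m).eval x = g i * y i ^ 2) →
        ∃ D ∈ S, ∃ B : ℚ[X], (∏ i, f i).map (Int.castRingHom ℚ) ∣
          B ^ 2 - D * (C (x : ℚ) - C (m : ℚ) * X)

end Pool.Agent.K7.H23.AT
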