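import Pool.Agent.K7.H23.AT.Stm2

/-!
Project AT, part 3: the two cases of the theorem.
-/

open Polynomial

set_option autoImplicit false

namespace Pool.Agent.K7.H23.AT

/-- the exceptional twists: `D ≠ 0` such that `y² = D^n f(x / D)` has an integral point with
`|x| > |D| ^ M` -/
def Exc (f : ℤ[X]) (M : ℕ) : Set ℤ :=
  {D : ℤ | D ≠ 0 ∧ ∃ x y : ℤ, y ^ 2 = (f.scaleRoots D).eval x ∧ |D| ^ M < |x|}

/-- density zero -/
def Dens0 (A : Set ℤ) : Prop :=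
  ∀ ε : ℝ, 0 < ε → ∃ N₀ : ℕ, ∀ N : ℕ, N₀ ≤ N →
    (Set.ncard {D : ℤ | D ∈ A ∧ |D| ≤ N} : ℝ) ≤ ε * N

/-- Job AS: case A, there is an irreducible factor of degree at least three
(`StCL → StSF → StDE → StAS`). -/
def StAS : Prop :=
  ∀ n : ℕ, Odd n → ∃ M : ℕ, ∀ f f₁ : ℤ[X], f.Monic → f.natDegree = n →
    (f.map (Int.castRingHom ℚ)).Separable → f₁.Monic → Irreducible f₁ → f₁ ∣ f →
    3 ≤ f₁.natDegree → Dens0 (Exc f M)

/-- Job BS: case B, all irreducible factors have degree at most two, and the degree is at least five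
(`StPC → StSF → StBS`). -/
def StBS : Prop :=
  ∀ n : ℕ, Odd n → 5 ≤ n → ∃ M : ℕ, ∀ f : ℤ[X], f.Monic → f.natDegree = n →
    (f.map (Int.castRingHom ℚ)).Separable →
    (∀ f₁ : ℤ[X], f₁.Monic → Irreducible f₁ → f₁ ∣ f → f₁.natDegree ≤ 2) → Dens0 (Exc f M)

end Pool.Agent.K7.H23.AT
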